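import Pool.Agent.H.MP_e563b5_al.BadFew

set_option autoImplicit false
set_option linter.unusedSectionVars false

open Equiv Finset Filter Topology
open scoped Classical

noncomputable section

namespace Pool.Agent.H.MP_e563b5_al

variable {X : Type} [DecidableEq X] {α : Type} [Finite α]

/-- Number of pairs grows subexponentially. -/
def H1 (act : α → Perm X) (o : X) : Prop :=
  ∀ r : ℕ, ∃ N : ℕ, ∀ n : ℕ, N ≤ n → (pairs act o (r * n)).ncard ≤ 2 ^ n

/-- Pairs with bounded number of sites. -/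
def PR (act : α → Perm X) (o : X) (R : ℕ) : Set (Finset X × Perm X) :=
  {p | ∃ w : List α, val act w = p.2 ∧ p.1 ⊆ sites act o w ∧ (sites act o w).card ≤ R}

/-- Finiteness of the pairs with bounded number of sites. -/
def H2 (act : α → Perm X) (o : X) : Prop := ∀ R : ℕ, (PR act o R).Finite

/-- Unbounded number of sites. -/
def H3 (act : α → Perm X) (o : X) : Prop := ∀ n : ℕ, ∃ w : List α, n ≤ (sites act o w).card

lemma sites_le_of_pairs (act : α → Perm X) (o : X) (m n : ℕ)
    (h : (pairs act o m).ncard ≤ 2 ^ n) (u : List α) (hu : u.length ≤ m) :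
    (sites act o u).card ≤ n := by
  have h1 : (((sites act o u).powerset.image (fun Y => (Y, val act u)) :
      Finset (Finset X × Perm X)) : Set (Finset X × Perm X)) ⊆ pairs act o m := by
    intro p hp
    rw [Finset.mem_coe, Finset.mem_image] at hp
    obtain ⟨Y, hY, rfl⟩ := hp
    exact ⟨u, hu, rfl, Finset.mem_powerset.1 hY⟩
  have h2 := Set.ncard_le_ncard h1 (pairs_finite act o m)
  rw [Set.ncard_coe_finset, Finset.card_image_of_injective _ (by
    intro a b hab
    exact (Prod.mk.inj hab).1), Finset.card_powerset] at h2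
  exact (Nat.pow_le_pow_iff_right (by norm_num)).1 (h2.trans h)

lemma exists_sites_half {act : α → Perm X} {o : X} (h : H1 act o) (r : ℕ) :
    ∃ N, ∀ n, N ≤ n → ∀ u : List α, u.length ≤ r * n → (sites act o u).card ≤ n / 2 := by
  obtain ⟨N, hN⟩ := h (4 * r)
  refine ⟨2 * N + 2, fun n hn u hu => ?_⟩
  refine sites_le_of_pairs act o (4 * r * (n / 2)) (n / 2) (hN (n / 2) (by omega)) u ?_
  refine hu.trans ?_
  have : n ≤ 4 * (n / 2) := by omega
  calc r * n ≤ r * (4 * (n / 2)) := Nat.mul_le_mul_left _ this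
    _ = 4 * r * (n / 2) := by ring

lemma exists_sites_small {act : α → Perm X} {o : X} (h : H1 act o) (K : ℕ) (hK : 1 ≤ K) :
    ∃ N, ∀ m, N ≤ m → ∀ u : List α, u.length ≤ m → K * (sites act o u).card ≤ m := by
  obtain ⟨N, hN⟩ := h (2 * K)
  refine ⟨K * N + K, fun m hm u hu => ?_⟩
  have h1 : N + 1 ≤ m / K := by
    rw [Nat.le_div_iff_mul_le hK]
    calc (N + 1) * K = K * N + K := by ring
      _ ≤ m := hm
  have h2 := sites_le_of_pairs act o (2 * K * (m / K)) (m / K) (hN (m / K) (by omega)) u (by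
    refine hu.trans ?_
    have h3 := Nat.div_add_mod m K
    have h4 := Nat.mod_lt m hK
    have h5 : K * 1 ≤ K * (m / K) := Nat.mul_le_mul_left _ (by omega)
    calc m = K * (m / K) + m % K := h3.symm
      _ ≤ K * (m / K) + K * (m / K) := by omega
      _ = 2 * K * (m / K) := by ring)
  calc K * (sites act o u).card ≤ K * (m / K) := Nat.mul_le_mul_left _ h2
    _ ≤ m := Nat.mul_div_le m K

lemma exists_many_sites {act : α → Perm X} {o : X} (h : H2 act o) (M n0 R : ℕ) :
    ∃ k0, ∀ k, k0 ≤ k → ∀ γ ∈ BadS act o M n0 k, ∀ w : List α, val act w = γ.g →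
      γ.f.support ⊆ sites act o w →
      w.length + nrm γ.f = k + 1 → R < (sites act o w).card := by
  have h1 : ∀ p ∈ PR act o R, ∃ w : List α, val act w = p.2 ∧ p.1 ⊆ sites act o w := by
    rintro p ⟨w, hw1, hw2, _⟩
    exact ⟨w, hw1, hw2⟩
  choose! W hW1 hW2 using h1
  obtain ⟨L, hL⟩ : ∃ L, ∀ p ∈ PR act o R, (W p).length ≤ L := by
    refine ⟨∑ p ∈ (h R).toFinset, (W p).length, fun p hp => ?_⟩
    exact Finset.single_le_sum (f := fun p => (W p).length) (fun _ _ => Nat.zero_le _)
      ((h R).mem_toFinset.2 hp)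
  refine ⟨L + M, fun k hk γ hγ w hw1 hw2 hw3 => ?_⟩
  by_contra hcon
  rw [not_lt] at hcon
  rw [BadS, Finset.mem_filter] at hγ
  have hp : (γ.f.support, γ.g) ∈ PR act o R := ⟨w, hw1, hw2, hcon⟩
  have h2 := sphere_min hγ.1 (W (γ.f.support, γ.g)) (hW1 _ hp) (hW2 _ hp)
  have h3 := hL _ hp
  omega

lemma sum_geom (n0 m : ℕ) (h : n0 ≤ m) :
    ∑ n ∈ Finset.Ioc n0 m, ((1 : ℝ) / 2) ^ n = (1 / 2) ^ n0 - (1 / 2) ^ m := by
  induction m, h using Nat.le_induction with
  | base => simp
  | succ m hm ih =>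
    rw [← Finset.insert_Ioc_right_eq_Ioc_add_one hm, Finset.sum_insert (by simp), ih, pow_succ]
    ring

lemma one_mem_Ng (act : α → Perm X) (o : X) (k : ℕ) : (1 : Wr X) ∈ Ng act o k := by
  rw [mem_Ng]
  exact ⟨[], by simp, by simp, by simp⟩

lemma Ng_pos (act : α → Perm X) (o : X) (k : ℕ) : 0 < (Ng act o k).card :=
  Finset.card_pos.2 ⟨1, one_mem_Ng act o k⟩

theorem sphere_small {act : α → Perm X} {o : X} (h1 : H1 act o) (h2 : H2 act o) (E : ℕ)
    (hE : 1 ≤ E) :
    ∃ k0, ∀ k, k0 ≤ k → E * (Sg act o k).card ≤ 3 * (Ng act o k).card := by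
  set r := (16 * 2 ^ (E + 1)) ^ 2 with hr
  obtain ⟨N1, hN1⟩ := h1 r
  obtain ⟨N2, hN2⟩ := exists_sites_half h1 r
  obtain ⟨N3, hN3⟩ := exists_sites_small h1 (E + 1 + r) (by omega)
  set n0 := N1 + N2 + E with hn0
  set M := (E + 1) * n0 with hM
  set c := (n0 + 1) * (Ng act o (M + 2)).card with hc
  have hc1 : 0 < c := Nat.mul_pos (Nat.succ_pos _) (Ng_pos act o _)
  obtain ⟨k1, hk1⟩ := exists_many_sites h2 M n0 (2 + n0 + E * c)
  refine ⟨k1 + N3 + M + 1, fun k hk => ?_⟩
  -- few lamps
  have hS : E * (BadS act o M n0 k).card ≤ (Ng act o k).card := by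
    have := bad_few act o M n0 k (2 + n0 + E * c) (by omega) (hk1 k (by omega))
    have e : 2 + n0 + E * c - 2 - n0 = E * c := by omega
    rw [e, ← hc] at this
    have h3 : (E * (BadS act o M n0 k).card) * c ≤ (Ng act o k).card * c := by
      calc (E * (BadS act o M n0 k).card) * c = (BadS act o M n0 k).card * (E * c) := by ring
        _ ≤ _ := this
    exact Nat.le_of_mul_le_mul_right h3 hc1
  -- good
  have hG := good_card act o E k
  -- many lamps
  have hF : ∀ n ∈ Finset.Ioc n0 (k + 1),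
      ((BadF act o E k n).card : ℝ) ≤ (Ng act o k).card * (1 / 2) ^ n := by
    intro n hn
    rw [Finset.mem_Ioc] at hn
    by_cases hne : (BadF act o E k n).Nonempty
    · obtain ⟨γ, hγ⟩ := hne
      rw [BadF, Finset.mem_filter] at hγ
      obtain ⟨w, hw1, hw2, hw3⟩ := sphere_word hγ.1
      have hn' : (E + 1 + r) * n ≤ k + 1 := by
        refine le_trans ?_ (hN3 (k + 1) (by omega) w (by omega))
        refine Nat.mul_le_mul_left _ ?_
        rw [← hγ.2.1]
        exact Finset.card_le_card hw2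
      have := bad_many act o E r n k (by omega) hr hn' (hN2 n (by omega)) (hN1 n (by omega))
      have h3 : ((BadF act o E k n).card : ℝ) * 2 ^ n ≤ (Ng act o k).card := by
        exact_mod_cast this
      rw [one_div, inv_pow]
      rw [← div_eq_mul_inv, le_div_iff₀ (by positivity)]
      exact h3
    · rw [Finset.not_nonempty_iff_eq_empty] at hne
      rw [hne]
      simp
  have hFs : (E : ℝ) * ∑ n ∈ Finset.Ioc n0 (k + 1), ((BadF act o E k n).card : ℝ) ≤
      (Ng act o k).card := by
    have h3 := Finset.sum_le_sum hF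
    rw [← Finset.mul_sum] at h3
    have h4 : n0 ≤ k + 1 := by
      have : n0 ≤ M := by
        rw [hM]
        exact Nat.le_mul_of_pos_left _ (by omega)
      omega
    rw [sum_geom n0 (k + 1) h4] at h3
    have h5 : (0 : ℝ) ≤ (1 / 2) ^ (k + 1) := by positivity
    have h6 : (E : ℝ) * (1 / 2) ^ n0 ≤ 1 := by
      rw [one_div, inv_pow, ← div_eq_mul_inv, div_le_one (by positivity)]
      have h7 : E ≤ 2 ^ n0 := by
        calc E ≤ n0 := by omega
          _ ≤ 2 ^ n0 := Nat.lt_two_pow_self.le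
      exact_mod_cast h7
    have h8 : (0 : ℝ) ≤ (Ng act o k).card := by positivity
    calc (E : ℝ) * ∑ n ∈ Finset.Ioc n0 (k + 1), ((BadF act o E k n).card : ℝ)
        ≤ E * ((Ng act o k).card * ((1 / 2) ^ n0 - (1 / 2) ^ (k + 1))) :=
          mul_le_mul_of_nonneg_left h3 (by positivity)
      _ ≤ E * ((Ng act o k).card * (1 / 2) ^ n0) := by
          refine mul_le_mul_of_nonneg_left ?_ (by positivity)
          refine mul_le_mul_of_nonneg_left ?_ h8
          linarith
      _ = (Ng act o k).card * (E * (1 / 2) ^ n0) := by ring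
      _ ≤ (Ng act o k).card * 1 := mul_le_mul_of_nonneg_left h6 h8
      _ = _ := mul_one _
  have hcov : Sg act o k ⊆ (Good act o E k ∪ BadS act o M n0 k) ∪
      (Finset.Ioc n0 (k + 1)).biUnion (fun n => BadF act o E k n) := by
    intro γ hγ
    obtain ⟨w, hw1, hw2, hw3⟩ := sphere_word hγ
    have hcn := card_support_le_nrm γ.f
    rw [Finset.mem_union, Finset.mem_union]
    by_cases hg : 1 ≤ γ.f.support.card ∧ (E + 1) * γ.f.support.card ≤ nrm γ.f
    · left; left
      rw [Good, Finset.mem_filter]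
      exact ⟨hγ, hg⟩
    · by_cases hn : γ.f.support.card ≤ n0
      · left; right
        rw [BadS, Finset.mem_filter]
        refine ⟨hγ, hn, ?_⟩
        by_cases h0 : 1 ≤ γ.f.support.card
        · have h3 : nrm γ.f < (E + 1) * γ.f.support.card := by
            by_contra h4
            exact hg ⟨h0, by omega⟩
          have h4 : (E + 1) * γ.f.support.card ≤ M := Nat.mul_le_mul_left _ hn
          omega
        · have h3 : γ.f.support = ∅ := by
            rw [← Finset.card_eq_zero]
            omega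
          unfold nrm
          rw [h3]
          simp
      · right
        rw [Finset.mem_biUnion]
        refine ⟨γ.f.support.card, ?_, ?_⟩
        · rw [Finset.mem_Ioc]
          omega
        · rw [BadF, Finset.mem_filter]
          refine ⟨hγ, rfl, ?_⟩
          by_contra h4
          exact hg ⟨by omega, by omega⟩
  have hcard : (Sg act o k).card ≤ (Good act o E k).card + (BadS act o M n0 k).card +
      ∑ n ∈ Finset.Ioc n0 (k + 1), (BadF act o E k n).card := by
    refine (Finset.card_le_card hcov).trans ?_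
    refine (Finset.card_union_le _ _).trans ?_
    exact Nat.add_le_add (Finset.card_union_le _ _) Finset.card_biUnion_le
  have hcard' : ((Sg act o k).card : ℝ) ≤ (Good act o E k).card + (BadS act o M n0 k).card +
      ∑ n ∈ Finset.Ioc n0 (k + 1), ((BadF act o E k n).card : ℝ) := by
    exact_mod_cast hcard
  have hG' : (E : ℝ) * (Good act o E k).card ≤ (Ng act o k).card := by exact_mod_cast hG
  have hS' : (E : ℝ) * (BadS act o M n0 k).card ≤ (Ng act o k).card := by exact_mod_cast hS
  have hfin : (E : ℝ) * (Sg act o k).card ≤ 3 * (Ng act o k).card := by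
    calc (E : ℝ) * (Sg act o k).card ≤ E * ((Good act o E k).card +
          (BadS act o M n0 k).card +
          ∑ n ∈ Finset.Ioc n0 (k + 1), ((BadF act o E k n).card : ℝ)) :=
          mul_le_mul_of_nonneg_left hcard' (by positivity)
      _ = E * (Good act o E k).card + E * (BadS act o M n0 k).card +
          E * ∑ n ∈ Finset.Ioc n0 (k + 1), ((BadF act o E k n).card : ℝ) := by ring
      _ ≤ 3 * (Ng act o k).card := by linarith
  exact_mod_cast hfin

lemma card_succ (act : α → Perm X) (o : X) (k : ℕ) :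
    (Ng act o (k + 1)).card = (Ng act o k).card + (Sg act o k).card := by
  rw [Sg, Finset.card_sdiff_of_subset, Nat.add_sub_cancel']
  · refine Finset.card_le_card ?_
    intro γ hγ
    rw [mem_Ng] at *
    exact N_mono act o (Nat.le_succ k) hγ
  · intro γ hγ
    rw [mem_Ng] at *
    exact N_mono act o (Nat.le_succ k) hγ

theorem ratio_tendsto {act : α → Perm X} {o : X} (h1 : H1 act o) (h2 : H2 act o) :
    Tendsto (fun k : ℕ => ((N act o (k + 1)).ncard : ℝ) / ((N act o k).ncard : ℝ)) atTop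
      (𝓝 1) := by
  rw [Metric.tendsto_atTop]
  intro ε hε
  obtain ⟨E, hE⟩ := exists_nat_gt (3 / ε)
  have hE0 : (0 : ℝ) < E := lt_trans (by positivity) hE
  have hE1 : 1 ≤ E := by exact_mod_cast hE0
  obtain ⟨k0, hk0⟩ := sphere_small h1 h2 E hE1
  refine ⟨k0, fun k hk => ?_⟩
  have h3 := hk0 k hk
  have hpos : (0 : ℝ) < (Ng act o k).card := by exact_mod_cast Ng_pos act o k
  rw [ncard_N, ncard_N, card_succ, Real.dist_eq]
  push_cast
  rw [add_div, div_self hpos.ne', add_sub_cancel_left, abs_of_nonneg (by positivity),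
    div_lt_iff₀ hpos]
  have h4 : (E : ℝ) * (Sg act o k).card ≤ 3 * (Ng act o k).card := by exact_mod_cast h3
  rw [div_lt_iff₀ hε] at hE
  have h5 : (E : ℝ) * (Sg act o k).card < E * (ε * (Ng act o k).card) := by
    calc (E : ℝ) * (Sg act o k).card ≤ 3 * (Ng act o k).card := h4
      _ < (E * ε) * (Ng act o k).card := by
          exact mul_lt_mul_of_pos_right hE hpos
      _ = _ := by ring
  exact lt_of_mul_lt_mul_left h5 hE0.le

/-- If consecutive ratios tend to `1` then so do the roots. -/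
theorem root_tendsto (β : ℕ → ℕ) (hpos : ∀ k, 0 < β k)
    (h : Tendsto (fun k : ℕ => (β (k + 1) : ℝ) / (β k : ℝ)) atTop (𝓝 1)) :
    Tendsto (fun k : ℕ => ((β k : ℝ)) ^ ((1 : ℝ) / (k : ℝ))) atTop (𝓝 1) := by
  have hp : ∀ k, (0 : ℝ) < β k := fun k => by exact_mod_cast hpos k
  have h1 : Tendsto (fun k : ℕ => Real.log (β (k + 1)) - Real.log (β k)) atTop (𝓝 0) := by
    have := (Real.continuousAt_log one_ne_zero).tendsto.comp h
    rw [Real.log_one] at this
    refine this.congr ?_
    intro k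
    simp only [Function.comp]
    rw [Real.log_div (hp _).ne' (hp _).ne']
  have h2 := h1.cesaro
  have h3 : Tendsto (fun n : ℕ => (n : ℝ)⁻¹ * Real.log (β 0)) atTop (𝓝 0) := by
    have := (tendsto_inv_atTop_nhds_zero_nat (𝕜 := ℝ)).mul_const (Real.log (β 0))
    simpa using this
  have h4 : Tendsto (fun n : ℕ => Real.log (β n) * ((1 : ℝ) / n)) atTop (𝓝 0) := by
    have := h2.add h3
    rw [add_zero] at this
    refine this.congr ?_
    intro n
    rw [Finset.sum_range_sub (fun k => Real.log (β k))]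
    ring
  have h5 := (Real.continuous_exp.tendsto 0).comp h4
  rw [Real.exp_zero] at h5
  refine h5.congr ?_
  intro n
  simp only [Function.comp]
  rw [Real.rpow_def_of_pos (hp n)]

/-- The growth is not polynomial. -/
theorem not_poly {act : α → Perm X} {o : X} (h3 : H3 act o) :
    ¬ ∃ (C : ℝ) (d : ℕ), ∀ k : ℕ, 1 ≤ k → ((N act o k).ncard : ℝ) ≤ C * (k : ℝ) ^ d := by
  rintro ⟨C, d, hC⟩
  obtain ⟨w, hw⟩ := h3 (d + 1)
  obtain ⟨Z, hZ1, hZ2⟩ := Finset.exists_subset_card_eq hw
  have key : ∀ m : ℕ, (m + 1) ^ (d + 1) ≤ (N act o (w.length + (d + 1) * m)).ncard := by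
    intro m
    have hsub : ((Z.finsupp (fun _ => Finset.Icc (0 : ℤ) m)).image
        (fun f => (⟨f, val act w⟩ : Wr X))) ⊆ Ng act o (w.length + (d + 1) * m) := by
      intro γ hγ
      rw [Finset.mem_image] at hγ
      obtain ⟨f, hf, rfl⟩ := hγ
      rw [Finset.mem_finsupp_iff] at hf
      rw [mem_Ng]
      refine ⟨w, rfl, hf.1.trans hZ1, ?_⟩
      simp only
      have : nrm f ≤ (d + 1) * m := by
        rw [nrm_eq_sum f Z hf.1]
        refine (Finset.sum_le_card_nsmul _ _ m ?_).trans (by simp [hZ2])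
        intro x hx
        have := hf.2 x hx
        rw [Finset.mem_Icc] at this
        omega
      omega
    have h4 := Finset.card_le_card hsub
    rw [Finset.card_image_of_injective _ (by
      intro f f' hff
      simp only [Wr.mk.injEq, and_true] at hff
      exact hff), Finset.card_finsupp] at h4
    simp only [Int.card_Icc, Finset.prod_const, hZ2, sub_zero] at h4
    rw [ncard_N]
    have e : ((m : ℤ) + 1).toNat = m + 1 := by omega
    rw [e] at h4
    exact h4
  set D : ℕ := w.length + d + 1 with hD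
  have hCpos : 0 ≤ C := by
    have := hC 1 le_rfl
    simp at this
    exact le_trans (by positivity) this
  obtain ⟨m, hm⟩ := exists_nat_gt (C * (D : ℝ) ^ d)
  have h5 := key (m + 1)
  have h6 := hC (w.length + (d + 1) * (m + 1)) (by nlinarith)
  have h7 : ((w.length + (d + 1) * (m + 1) : ℕ) : ℝ) ≤ D * (m + 1 + 1) := by
    have : w.length + (d + 1) * (m + 1) ≤ D * (m + 1 + 1) := by
      rw [hD]
      nlinarith
    exact_mod_cast this
  have h8 : ((m : ℝ) + 1 + 1) ^ (d + 1) ≤ C * (D * (m + 1 + 1)) ^ d := by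
    calc ((m : ℝ) + 1 + 1) ^ (d + 1) ≤ ((N act o (w.length + (d + 1) * (m + 1))).ncard : ℝ) := by
          exact_mod_cast h5
      _ ≤ C * ((w.length + (d + 1) * (m + 1) : ℕ) : ℝ) ^ d := h6
      _ ≤ C * (D * (m + 1 + 1)) ^ d := by
          refine mul_le_mul_of_nonneg_left ?_ hCpos
          exact pow_le_pow_left₀ (by positivity) h7 d
  rw [mul_pow, pow_succ] at h8
  have h9 : (0 : ℝ) < ((m : ℝ) + 1 + 1) ^ d := by positivity
  have h10 : ((m : ℝ) + 1 + 1) ≤ C * (D : ℝ) ^ d := by
    have : ((m : ℝ) + 1 + 1) * ((m : ℝ) + 1 + 1) ^ d ≤ (C * (D : ℝ) ^ d) * ((m : ℝ) + 1 + 1) ^ d := by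
      calc ((m : ℝ) + 1 + 1) * ((m : ℝ) + 1 + 1) ^ d = ((m : ℝ) + 1 + 1) ^ d * ((m : ℝ) + 1 + 1) := by
            ring
        _ ≤ _ := h8
        _ = _ := by ring
    exact le_of_mul_le_mul_right this h9
  linarith

/-- The abstract theorem. -/
theorem abstract_main {X α : Type} [DecidableEq X] [Fintype α] (act : α → Perm X) (o : X)
    (hinv : ∀ s, act s * act s = 1) (h1 : H1 act o) (h2 : H2 act o) (h3 : H3 act o) :
    ∃ (G : Type) (inst : Group G) (S : Finset G) (β : ℕ → ℕ),
    Subgroup.closure (S : Set G) = ⊤ ∧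
    (∀ k : ℕ, β k = Set.ncard {g : G | ∃ l : List G, l.length ≤ k ∧
        (∀ x ∈ l, x ∈ S ∨ x⁻¹ ∈ S) ∧ l.prod = g}) ∧
    Filter.Tendsto (fun k : ℕ => ((β k : ℝ)) ^ ((1 : ℝ) / (k : ℝ))) Filter.atTop (nhds 1) ∧
    (¬ ∃ (C : ℝ) (d : ℕ), ∀ k : ℕ, 1 ≤ k → (β k : ℝ) ≤ C * (k : ℝ) ^ d) ∧
    Filter.Tendsto (fun k : ℕ => (β (k + 1) : ℝ) / (β k : ℝ)) Filter.atTop (nhds 1) := by
  obtain ⟨G, inst, S, hS, hball⟩ := exists_group act o hinv
  refine ⟨G, inst, S, fun k => (N act o k).ncard, hS, fun k => (hball k).symm, ?_, not_poly h3,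
    ratio_tendsto h1 h2⟩
  refine root_tendsto (fun k => (N act o k).ncard) ?_ (ratio_tendsto h1 h2)
  intro k
  rw [ncard_N]
  exact Ng_pos act o k

end Pool.Agent.H.MP_e563b5_al
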