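import Pool.Agent.H.MP_e563b5_al.BadMany

set_option autoImplicit false
set_option linter.unusedSectionVars false

open Equiv Finset
open scoped Classical

noncomputable section

namespace Pool.Agent.H.MP_e563b5_al

variable {X : Type} [DecidableEq X] {α : Type} [Finite α]

/-- The part of the sphere with few lamps and little energy. -/
def BadS (act : α → Perm X) (o : X) (M n0 k : ℕ) : Finset (Wr X) :=
  (Sg act o k).filter fun γ => γ.f.support.card ≤ n0 ∧ nrm γ.f ≤ M

/-- The relation used to compare. -/
def Ad (act : α → Perm X) (o : X) (M : ℕ) (γ δ : Wr X) : Prop :=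
  ∃ y ∈ δ.f.support, ∃ η ∈ Ng act o (M + 2), γ = ⟨δ.f - Finsupp.single y 1, δ.g⟩ * η

lemma few_above (act : α → Perm X) (o : X) (M n0 k R : ℕ) (hk : M + 1 ≤ k) (γ : Wr X)
    (hγ : γ ∈ BadS act o M n0 k)
    (hR : ∀ w : List α, val act w = γ.g → γ.f.support ⊆ sites act o w →
      w.length + nrm γ.f = k + 1 → R < (sites act o w).card) :
    R - 2 - n0 ≤ (((Ng act o k).filter fun δ => δ.f.support.card ≤ n0 + 1).bipartiteAbove
      (Ad act o M) γ).card := by
  rw [BadS, Finset.mem_filter] at hγ
  obtain ⟨hS, hc, hm⟩ := hγ
  obtain ⟨w, hw1, hw2, hw3⟩ := sphere_word hS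
  have hw4 := hR w hw1 hw2 hw3
  obtain ⟨w0, u, rfl, hu⟩ : ∃ w0 u : List α, w = w0 ++ u ∧ u.length = 2 := by
    refine ⟨w.take (w.length - 2), w.drop (w.length - 2), by simp, ?_⟩
    rw [List.length_drop]
    omega
  rw [List.length_append] at hw3
  rw [val_append] at hw1
  rw [sites_append] at hw2 hw4
  have hcu := card_sites_le act o u
  have hc0 : R - 2 ≤ (sites act o w0).card := by
    have := Finset.card_union_le (sites act o w0) ((sites act o u).map (val act w0).toEmbedding)
    rw [Finset.card_map] at this
    omega
  have hT : R - 2 - n0 ≤ (sites act o w0 \ γ.f.support).card := by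
    have := Finset.le_card_sdiff γ.f.support (sites act o w0)
    omega
  refine hT.trans ?_
  set f0 : X →₀ ℤ := γ.f.filter (fun x => x ∈ sites act o w0) with hf0
  set f1 : X →₀ ℤ := γ.f.filter (fun x => ¬ x ∈ sites act o w0) with hf1
  have hf01 : f0 + f1 = γ.f := Finsupp.filter_add_filter_not γ.f _
  have hn01 : nrm f0 + nrm f1 = nrm γ.f := nrm_filter_add γ.f _
  have hs0 : f0.support ⊆ sites act o w0 := by
    intro x hx
    rw [hf0, Finsupp.support_filter, Finset.mem_filter] at hx
    exact hx.2
  have hs0' : f0.support ⊆ γ.f.support := by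
    intro x hx
    rw [hf0, Finsupp.support_filter, Finset.mem_filter] at hx
    exact hx.1
  refine Finset.card_le_card_of_injOn (fun y => (⟨f0 + Finsupp.single y 1, val act w0⟩ : Wr X))
    ?_ ?_
  · intro y hy
    rw [Finset.mem_coe, Finset.mem_sdiff] at hy
    have hy0 : f0 y = 0 := by
      by_contra h
      exact hy.2 (hs0' (Finsupp.mem_support_iff.mpr h))
    rw [Finset.mem_coe, Finset.mem_bipartiteAbove, Finset.mem_filter, mem_Ng]
    refine ⟨⟨⟨w0, rfl, ?_, ?_⟩, ?_⟩, y, ?_, ⟨f1.equivMapDomain (val act w0)⁻¹, val act u⟩, ?_, ?_⟩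
    · refine Finsupp.support_add.trans (Finset.union_subset hs0 ?_)
      refine Finsupp.support_single_subset.trans ?_
      simpa using hy.1
    · have := nrm_add_le f0 (Finsupp.single y 1)
      rw [nrm_single] at this
      simp only [Int.natAbs_one] at this
      simp only
      omega
    · refine (Finset.card_le_card Finsupp.support_add).trans ?_
      refine (Finset.card_union_le _ _).trans ?_
      have h1 := Finset.card_le_card hs0'
      have h2 : (Finsupp.single y (1 : ℤ)).support.card ≤ 1 := by
        refine (Finset.card_le_card Finsupp.support_single_subset).trans ?_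
        simp
      omega
    · rw [Finsupp.mem_support_iff]
      simp [hy0]
    · rw [mem_Ng]
      refine ⟨u, rfl, ?_, ?_⟩
      · intro x hx
        simp only [Finsupp.mem_support_iff, Finsupp.equivMapDomain_apply] at hx
        have e : (Equiv.symm (val act w0)⁻¹) = val act w0 := rfl
        rw [e] at hx
        have hx1 : γ.f (val act w0 x) ≠ 0 := by
          intro h
          apply hx
          rw [hf1, Finsupp.filter_apply, h]
          simp
        have hx2 : ¬ (val act w0 x) ∈ sites act o w0 := by
          intro h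
          apply hx
          rw [hf1, Finsupp.filter_apply, if_neg (by simpa using h)]
        have h1 := hw2 (Finsupp.mem_support_iff.mpr hx1)
        rw [Finset.mem_union] at h1
        rcases h1 with h1 | h1
        · exact absurd h1 hx2
        · rw [Finset.mem_map_equiv] at h1
          simpa using h1
      · simp only [nrm_equivMapDomain]
        omega
    · refine Wr.ext ?_ ?_
      · ext x
        simp only [Wr.mul_f, Finsupp.add_apply, Finsupp.equivMapDomain_apply, add_sub_cancel_right]
        have e : (Equiv.symm (val act w0)⁻¹) ((Equiv.symm (val act w0)) x) = x := by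
          have : (Equiv.symm (val act w0)⁻¹) = val act w0 := rfl
          rw [this]
          simp
        rw [e, ← hf01]
        simp
      · simp only [Wr.mul_g]
        exact hw1.symm
  · intro y hy z hz hyz
    simp only [Wr.mk.injEq, and_true, add_right_inj] at hyz
    exact Finsupp.single_left_injective one_ne_zero hyz

lemma few_below (act : α → Perm X) (o : X) (M n0 k : ℕ) (δ : Wr X)
    (hδ : δ.f.support.card ≤ n0 + 1) :
    ((BadS act o M n0 k).bipartiteBelow (Ad act o M) δ).card ≤
      (n0 + 1) * (Ng act o (M + 2)).card := by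
  have hsub : (BadS act o M n0 k).bipartiteBelow (Ad act o M) δ ⊆
      (δ.f.support ×ˢ Ng act o (M + 2)).image
        (fun p => (⟨δ.f - Finsupp.single p.1 1, δ.g⟩ : Wr X) * p.2) := by
    intro γ hγ
    rw [Finset.mem_bipartiteBelow] at hγ
    obtain ⟨_, y, hy, η, hη, rfl⟩ := hγ
    rw [Finset.mem_image]
    exact ⟨(y, η), Finset.mem_product.mpr ⟨hy, hη⟩, rfl⟩
  refine (Finset.card_le_card hsub).trans (Finset.card_image_le.trans ?_)
  rw [Finset.card_product]
  exact Nat.mul_le_mul_right _ hδ

theorem bad_few (act : α → Perm X) (o : X) (M n0 k R : ℕ) (hk : M + 1 ≤ k)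
    (hR : ∀ γ ∈ BadS act o M n0 k, ∀ w : List α, val act w = γ.g →
      γ.f.support ⊆ sites act o w →
      w.length + nrm γ.f = k + 1 → R < (sites act o w).card) :
    (BadS act o M n0 k).card * (R - 2 - n0) ≤
      (Ng act o k).card * ((n0 + 1) * (Ng act o (M + 2)).card) := by
  have h := Finset.card_mul_le_card_mul (s := BadS act o M n0 k)
    (t := (Ng act o k).filter fun δ => δ.f.support.card ≤ n0 + 1)
    (m := R - 2 - n0) (n := (n0 + 1) * (Ng act o (M + 2)).card) (Ad act o M)
    (fun γ hγ => few_above act o M n0 k R hk γ hγ (hR γ hγ))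
    (fun δ hδ => few_below act o M n0 k δ (Finset.mem_filter.1 hδ).2)
  refine h.trans (Nat.mul_le_mul_right _ (Finset.card_le_card (Finset.filter_subset _ _)))

end Pool.Agent.H.MP_e563b5_al
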