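import Pool.Agent.H.MP_e563b5_al.Good

set_option autoImplicit false
set_option linter.unusedSectionVars false

open Equiv Finset
open scoped Classical

noncomputable section

namespace Pool.Agent.H.MP_e563b5_al

variable {X : Type} [DecidableEq X] {α : Type}

lemma nrm_erase (f : X →₀ ℤ) (o : X) : nrm f = (f o).natAbs + nrm (f.erase o) := by
  have e1 := nrm_eq_sum f (insert o f.support) (Finset.subset_insert _ _)
  have e2 := nrm_eq_sum (f.erase o) (insert o f.support) (by
    intro x hx
    simp at hx
    simp [hx.2])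
  have e3 := nrm_eq_sum (Finsupp.single o (f o)) (insert o f.support) (by
    intro x hx
    simp [Finsupp.single_apply] at hx
    simp [hx.1])
  rw [nrm_single] at e3
  rw [e1, e3, e2, ← Finset.sum_add_distrib]
  refine Finset.sum_congr rfl ?_
  intro x _
  by_cases h : x = o
  · subst h; simp
  · rw [Finsupp.erase_ne h, Finsupp.single_apply, if_neg (Ne.symm h)]
    simp

lemma sum_two_pow (m : ℕ) : ∑ j ∈ Finset.range (m + 1), 2 ^ (m - j) ≤ 2 * 2 ^ m := by
  have h : ∀ n : ℕ, ∑ j ∈ Finset.range n, 2 ^ j + 1 = 2 ^ n := by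
    intro n
    induction n with
    | zero => simp
    | succ n ih =>
      rw [Finset.sum_range_succ, pow_succ]
      omega
  have h2 := Finset.sum_flip (n := m) (fun j => 2 ^ j)
  have h3 := h (m + 1)
  rw [pow_succ] at h3
  omega

/-- Number of integer valued functions with given support and bounded norm. -/
lemma exists_cover (Y : Finset X) : ∀ m : ℕ, ∃ F : Finset (X →₀ ℤ),
    (∀ f : X →₀ ℤ, f.support ⊆ Y → nrm f ≤ m → f ∈ F) ∧ F.card ≤ 4 ^ Y.card * 2 ^ m := by
  induction Y using Finset.induction_on with
  | empty =>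
    intro m
    refine ⟨{0}, ?_, ?_⟩
    · intro f hf _
      rw [Finset.subset_empty, Finsupp.support_eq_empty] at hf
      simp [hf]
    · simp
      exact Nat.one_le_two_pow
  | insert y Y hy ih =>
    intro m
    choose F hF1 hF2 using ih
    refine ⟨(Finset.range (m + 1)).biUnion (fun j =>
      ((F (m - j)).image (fun f => f + Finsupp.single y (j : ℤ))) ∪
      ((F (m - j)).image (fun f => f + Finsupp.single y (-(j : ℤ))))), ?_, ?_⟩
    · intro f hf hm
      have h1 := nrm_erase f y
      rw [Finset.mem_biUnion]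
      refine ⟨(f y).natAbs, by rw [Finset.mem_range]; omega, ?_⟩
      have h2 : f.erase y ∈ F (m - (f y).natAbs) := by
        apply hF1
        · rw [Finsupp.support_erase]
          intro x hx
          rw [Finset.mem_erase] at hx
          exact (Finset.mem_insert.1 (hf hx.2)).resolve_left hx.1
        · omega
      rw [Finset.mem_union]
      rcases Int.natAbs_eq (f y) with h | h
      · left
        rw [Finset.mem_image]
        refine ⟨f.erase y, h2, ?_⟩
        rw [← h]
        exact Finsupp.erase_add_single y f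
      · right
        rw [Finset.mem_image]
        refine ⟨f.erase y, h2, ?_⟩
        rw [← h]
        exact Finsupp.erase_add_single y f
    · refine Finset.card_biUnion_le.trans ?_
      rw [Finset.card_insert_of_notMem hy]
      have h1 : ∀ j ∈ Finset.range (m + 1),
          (((F (m - j)).image (fun f => f + Finsupp.single y (j : ℤ))) ∪
          ((F (m - j)).image (fun f => f + Finsupp.single y (-(j : ℤ))))).card ≤
          (2 * 4 ^ Y.card) * 2 ^ (m - j) := by
        intro j _
        refine (Finset.card_union_le _ _).trans ?_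
        have a1 : ((F (m - j)).image (fun f => f + Finsupp.single y (j : ℤ))).card ≤ _ :=
          Finset.card_image_le
        have a2 : ((F (m - j)).image (fun f => f + Finsupp.single y (-(j : ℤ)))).card ≤ _ :=
          Finset.card_image_le
        have a3 := hF2 (m - j)
        calc _ ≤ (F (m - j)).card + (F (m - j)).card := Nat.add_le_add a1 a2
          _ ≤ 4 ^ Y.card * 2 ^ (m - j) + 4 ^ Y.card * 2 ^ (m - j) := Nat.add_le_add a3 a3
          _ = _ := by ring
      refine (Finset.sum_le_sum h1).trans ?_
      rw [← Finset.mul_sum]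
      calc 2 * 4 ^ Y.card * ∑ j ∈ Finset.range (m + 1), 2 ^ (m - j)
          ≤ 2 * 4 ^ Y.card * (2 * 2 ^ m) := Nat.mul_le_mul_left _ (sum_two_pow m)
        _ = 4 ^ (Y.card + 1) * 2 ^ m := by ring

/-- Pairs (set of sites, permutation) of cost at most `n`. -/
def pairs (act : α → Perm X) (o : X) (n : ℕ) : Set (Finset X × Perm X) :=
  {p | ∃ w : List α, w.length ≤ n ∧ val act w = p.2 ∧ p.1 ⊆ sites act o w}

lemma pairs_finite [Finite α] (act : α → Perm X) (o : X) (n : ℕ) :
    (pairs act o n).Finite := by
  have h : pairs act o n ⊆ ⋃ w ∈ {w : List α | w.length ≤ n},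
      (((sites act o w).powerset : Finset (Finset X)) : Set (Finset X)) ×ˢ {val act w} := by
    rintro ⟨Y, g⟩ ⟨w, h1, h2, h3⟩
    simp only [Set.mem_iUnion]
    refine ⟨w, h1, ?_⟩
    simp only [Set.mem_prod, Set.mem_singleton_iff, Finset.mem_coe, Finset.mem_powerset]
    exact ⟨h3, h2.symm⟩
  refine Set.Finite.subset ?_ h
  refine Set.Finite.biUnion (List.finite_length_le _ _) ?_
  intro w _
  exact (Finset.finite_toSet _).prod (Set.finite_singleton _)

/-- The pairs that remain after the cut. -/
def P0 (act : α → Perm X) (o : X) (r n k : ℕ) : Set (Finset X × Perm X) :=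
  {p | ∃ w : List α, w.length + r * n ≤ k ∧ val act w = p.2 ∧ p.1 ⊆ sites act o w ∧
    n - n / 2 ≤ p.1.card ∧ p.1.card ≤ n}

lemma P0_finite [Finite α] (act : α → Perm X) (o : X) (r n k : ℕ) :
    (P0 act o r n k).Finite := by
  refine (pairs_finite act o k).subset ?_
  rintro ⟨Y, g⟩ ⟨w, h1, h2, h3, _⟩
  exact ⟨w, by omega, h2, h3⟩

lemma P0_card [Finite α] (act : α → Perm X) (o : X) (r n k : ℕ) (hr : 1 ≤ r) :
    (P0_finite act o r n k).toFinset.card * r ^ (n - n / 2) ≤ (Ng act o k).card := by
  set P := (P0_finite act o r n k).toFinset with hP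
  have hsupp : ∀ (Y : Finset X) (f : X →₀ ℤ), f ∈ Y.finsupp (fun _ => Finset.Icc (1 : ℤ) r) →
      f.support = Y := by
    intro Y f hf
    rw [Finset.mem_finsupp_iff] at hf
    refine Finset.Subset.antisymm hf.1 ?_
    intro x hx
    have := hf.2 x hx
    rw [Finset.mem_Icc] at this
    rw [Finsupp.mem_support_iff]
    omega
  have hsub : P.biUnion (fun p => (p.1.finsupp (fun _ => Finset.Icc (1 : ℤ) r)).image
      (fun f => (⟨f, p.2⟩ : Wr X))) ⊆ Ng act o k := by
    intro γ hγ
    rw [Finset.mem_biUnion] at hγ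
    obtain ⟨p, hp, hγ⟩ := hγ
    rw [hP, Set.Finite.mem_toFinset] at hp
    obtain ⟨w, h1, h2, h3, h4, h5⟩ := hp
    rw [Finset.mem_image] at hγ
    obtain ⟨f, hf, rfl⟩ := hγ
    rw [mem_Ng]
    have hs := hsupp p.1 f hf
    refine ⟨w, h2, ?_, ?_⟩
    · simp only
      rw [hs]
      exact h3
    · simp only
      have hn : nrm f ≤ r * p.1.card := by
        unfold nrm
        rw [hs, mul_comm]
        rw [Finset.mem_finsupp_iff] at hf
        refine (Finset.sum_le_card_nsmul _ _ r ?_).trans (by simp)
        intro x hx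
        have := hf.2 x hx
        rw [Finset.mem_Icc] at this
        omega
      have : r * p.1.card ≤ r * n := Nat.mul_le_mul_left _ h5
      omega
  refine le_trans ?_ (Finset.card_le_card hsub)
  rw [Finset.card_biUnion]
  · rw [← smul_eq_mul]
    refine Finset.card_nsmul_le_sum _ _ _ ?_
    intro p hp
    rw [hP, Set.Finite.mem_toFinset] at hp
    obtain ⟨w, h1, h2, h3, h4, h5⟩ := hp
    rw [Finset.card_image_of_injective _ (by
      intro f f' hff
      simp only [Wr.mk.injEq, and_true] at hff
      exact hff), Finset.card_finsupp]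
    simp only [Int.card_Icc, add_sub_cancel_right, Int.toNat_natCast, Finset.prod_const]
    exact Nat.pow_le_pow_right hr h4
  · intro p _ q _ hpq
    change Disjoint _ _
    rw [Finset.disjoint_left]
    intro γ h1 h2
    rw [Finset.mem_image] at h1 h2
    obtain ⟨f, hf, rfl⟩ := h1
    obtain ⟨f', hf', h⟩ := h2
    apply hpq
    simp only [Wr.mk.injEq] at h
    refine Prod.ext ?_ h.2.symm
    rw [← hsupp p.1 f hf, ← hsupp q.1 f' hf', h.1]

/-- The part of the sphere with `n` lamps and little energy. -/
def BadF [Finite α] (act : α → Perm X) (o : X) (E k n : ℕ) : Finset (Wr X) :=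
  (Sg act o k).filter fun γ => γ.f.support.card = n ∧ nrm γ.f < (E + 1) * n

lemma BadF_card [Finite α] (act : α → Perm X) (o : X) (E r n k : ℕ) (hn : 1 ≤ n)
    (hk : (E + 1 + r) * n ≤ k + 1)
    (hs : ∀ u : List α, u.length ≤ r * n → (sites act o u).card ≤ n / 2) :
    (BadF act o E k n).card ≤
      (P0_finite act o r n k).toFinset.card * (pairs_finite act o (r * n)).toFinset.card *
        (4 ^ n * 2 ^ ((E + 1) * n)) := by
  set P := (P0_finite act o r n k).toFinset with hP
  set Q := (pairs_finite act o (r * n)).toFinset with hQ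
  choose F hF1 hF2 using (exists_cover (X := X))
  have hsub : BadF act o E k n ⊆ (P ×ˢ Q).biUnion (fun pq =>
      if (pq.1.1 ∪ pq.2.1.map pq.1.2.toEmbedding).card = n then
        (F (pq.1.1 ∪ pq.2.1.map pq.1.2.toEmbedding) ((E + 1) * n)).image
          (fun f => (⟨f, pq.1.2 * pq.2.2⟩ : Wr X)) else ∅) := by
    intro γ hγ
    rw [BadF, Finset.mem_filter] at hγ
    obtain ⟨hS, hc, hm⟩ := hγ
    obtain ⟨w, hw1, hw2, hw3⟩ := sphere_word hS
    have hexp : (E + 1 + r) * n = (E + 1) * n + r * n := by ring
    have hlen : r * n ≤ w.length := by omega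
    have hcn := card_support_le_nrm γ.f
    obtain ⟨w0, u, rfl, hu⟩ : ∃ w0 u : List α, w = w0 ++ u ∧ u.length = r * n := by
      refine ⟨w.take (w.length - r * n), w.drop (w.length - r * n), by simp, ?_⟩
      rw [List.length_drop]
      omega
    rw [List.length_append] at hw3
    rw [val_append] at hw1
    rw [sites_append] at hw2
    set Y0 := γ.f.support ∩ sites act o w0 with hY0
    set Y1 := (γ.f.support \ sites act o w0).map (val act w0)⁻¹.toEmbedding with hY1
    have hY1s : Y1 ⊆ sites act o u := by
      intro x hx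
      rw [hY1, Finset.mem_map_equiv, Finset.mem_sdiff] at hx
      have h1 := hw2 hx.1
      rw [Finset.mem_union] at h1
      rcases h1 with h1 | h1
      · exact absurd h1 hx.2
      · rw [Finset.mem_map_equiv] at h1
        have e : (Equiv.symm (val act w0)) ((Equiv.symm (val act w0)⁻¹) x) = x := by
          have : (Equiv.symm (val act w0)⁻¹) = val act w0 := rfl
          rw [this]
          simp
        rw [e] at h1
        exact h1
    have hmap : Y1.map (val act w0).toEmbedding = γ.f.support \ sites act o w0 := by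
      ext x
      rw [Finset.mem_map_equiv, hY1, Finset.mem_map_equiv]
      have e : (Equiv.symm (val act w0)⁻¹) ((Equiv.symm (val act w0)) x) = x := by
        have : (Equiv.symm (val act w0)⁻¹) = val act w0 := rfl
        rw [this]
        simp
      rw [e]
    have hunion : Y0 ∪ Y1.map (val act w0).toEmbedding = γ.f.support := by
      rw [hmap, hY0]
      ext x
      simp only [Finset.mem_union, Finset.mem_inter, Finset.mem_sdiff]
      tauto
    have hY1c : Y1.card ≤ n / 2 := (Finset.card_le_card hY1s).trans (hs u hu.le)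
    have hY0c : n - n / 2 ≤ Y0.card := by
      have h1 : γ.f.support.card ≤ Y0.card + Y1.card := by
        rw [← hunion]
        refine (Finset.card_union_le _ _).trans ?_
        rw [Finset.card_map]
      omega
    have hY0c' : Y0.card ≤ n := by
      rw [← hc]
      exact Finset.card_le_card Finset.inter_subset_left
    rw [Finset.mem_biUnion]
    refine ⟨((Y0, val act w0), (Y1, val act u)), ?_, ?_⟩
    · rw [Finset.mem_product, hP, hQ, Set.Finite.mem_toFinset, Set.Finite.mem_toFinset]
      refine ⟨⟨w0, by omega, rfl, Finset.inter_subset_right, hY0c, hY0c'⟩, ⟨u, hu.le, rfl, hY1s⟩⟩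
    · simp only
      rw [hunion, if_pos hc, Finset.mem_image]
      refine ⟨γ.f, hF1 _ _ _ (Finset.Subset.refl _) hm.le, ?_⟩
      exact Wr.ext rfl hw1
  refine (Finset.card_le_card hsub).trans ?_
  rw [← Finset.card_product]
  refine Finset.card_biUnion_le_card_mul _ _ _ ?_
  intro pq _
  split_ifs with h
  · refine Finset.card_image_le.trans ((hF2 _ _).trans ?_)
    rw [h]
  · simp

theorem bad_many [Finite α] (act : α → Perm X) (o : X) (E r n k : ℕ) (hn : 1 ≤ n)
    (hr : r = (16 * 2 ^ (E + 1)) ^ 2)
    (hk : (E + 1 + r) * n ≤ k + 1)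
    (hs : ∀ u : List α, u.length ≤ r * n → (sites act o u).card ≤ n / 2)
    (hQ : (pairs act o (r * n)).ncard ≤ 2 ^ n) :
    (BadF act o E k n).card * 2 ^ n ≤ (Ng act o k).card := by
  have hr1 : 1 ≤ r := by
    rw [hr]
    exact Nat.one_le_pow _ _ (by positivity)
  have h1 := BadF_card act o E r n k hn hk hs
  have h2 := P0_card act o r n k hr1
  rw [Set.ncard_eq_toFinset_card _ (pairs_finite act o (r * n))] at hQ
  set b := (BadF act o E k n).card
  set p := (P0_finite act o r n k).toFinset.card
  set q := (pairs_finite act o (r * n)).toFinset.card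
  set s := 16 * 2 ^ (E + 1) with hs'
  have h3 : s ^ n ≤ r ^ (n - n / 2) := by
    rw [hr, ← pow_mul]
    exact Nat.pow_le_pow_right (by positivity) (by omega)
  have h4 : b * s ^ n ≤ (Ng act o k).card * (8 * 2 ^ (E + 1)) ^ n := by
    calc b * s ^ n ≤ (p * q * (4 ^ n * 2 ^ ((E + 1) * n))) * r ^ (n - n / 2) :=
          Nat.mul_le_mul h1 h3
      _ = (p * r ^ (n - n / 2)) * q * (4 ^ n * 2 ^ ((E + 1) * n)) := by ring
      _ ≤ (Ng act o k).card * 2 ^ n * (4 ^ n * 2 ^ ((E + 1) * n)) :=
          Nat.mul_le_mul_right _ (Nat.mul_le_mul h2 hQ)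
      _ = (Ng act o k).card * (8 * 2 ^ (E + 1)) ^ n := by
          rw [pow_mul, mul_pow, mul_assoc, ← mul_assoc (2 ^ n), ← mul_pow]
          norm_num
  have h5 : s ^ n = 2 ^ n * (8 * 2 ^ (E + 1)) ^ n := by
    rw [hs', ← mul_pow]
    congr 1
    ring
  rw [h5, ← mul_assoc] at h4
  exact Nat.le_of_mul_le_mul_right h4 (by positivity)

end Pool.Agent.H.MP_e563b5_al
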