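import Pool.Agent.H.MP_e563b5_al.Basic

set_option autoImplicit false
set_option linter.unusedSectionVars false

open Equiv Finset

noncomputable section

namespace Pool.Agent.H.MP_e563b5_al

variable {X : Type} [DecidableEq X] {α : Type}

lemma N_mono (act : α → Perm X) (o : X) {k l : ℕ} (h : k ≤ l) : N act o k ⊆ N act o l := by
  rintro γ ⟨w, h1, h2, h3⟩
  exact ⟨w, h1, h2, h3.trans h⟩

lemma symm_one_apply' (x : X) : (Equiv.symm (1 : Perm X)) x = x := rfl

lemma exists_list_map {β γ : Type} (f : β → γ) (l : List γ) (h : ∀ y ∈ l, ∃ x, f x = y) :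
    ∃ l' : List β, l'.map f = l := by
  induction l with
  | nil => exact ⟨[], rfl⟩
  | cons y l ih =>
    obtain ⟨x, hx⟩ := h y (by simp)
    obtain ⟨l', hl'⟩ := ih (fun z hz => h z (by simp [hz]))
    exact ⟨x :: l', by simp [hx, hl']⟩

lemma gen_pow_true (act : α → Perm X) (o : X) (n : ℕ) :
    (gen act o (Sum.inr true)) ^ n = ⟨Finsupp.single o (n : ℤ), 1⟩ := by
  induction n with
  | zero =>
    refine Wr.ext ?_ ?_
    · simp
    · simp
  | succ n ih =>
    rw [pow_succ, ih]
    refine Wr.ext ?_ ?_
    · ext x
      simp only [gen, Wr.mul_f, Finsupp.add_apply, Finsupp.equivMapDomain_apply,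
        Finsupp.single_apply, symm_one_apply']
      split_ifs <;> simp
    · simp [gen]

lemma gen_pow_false (act : α → Perm X) (o : X) (n : ℕ) :
    (gen act o (Sum.inr false)) ^ n = ⟨Finsupp.single o (-(n : ℤ)), 1⟩ := by
  induction n with
  | zero =>
    refine Wr.ext ?_ ?_
    · simp
    · simp
  | succ n ih =>
    rw [pow_succ, ih]
    refine Wr.ext ?_ ?_
    · ext x
      simp only [gen, Wr.mul_f, Finsupp.add_apply, Finsupp.equivMapDomain_apply,
        Finsupp.single_apply, symm_one_apply']
      split_ifs <;> simp
      ring
    · simp [gen]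

lemma exists_lamp_word (act : α → Perm X) (o : X) (z : ℤ) :
    ∃ l : List (α ⊕ Bool), l.length = z.natAbs ∧
      (l.map (gen act o)).prod = ⟨Finsupp.single o z, 1⟩ := by
  rcases Int.natAbs_eq z with h | h
  · refine ⟨List.replicate z.natAbs (Sum.inr true), by simp, ?_⟩
    rw [List.map_replicate, List.prod_replicate, gen_pow_true, ← h]
  · refine ⟨List.replicate z.natAbs (Sum.inr false), by simp, ?_⟩
    rw [List.map_replicate, List.prod_replicate, gen_pow_false, ← h]

lemma exists_word_of_mem (act : α → Perm X) (o : X) (w : List α) :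
    ∀ f : X →₀ ℤ, f.support ⊆ sites act o w →
      ∃ l : List (α ⊕ Bool), l.length = w.length + nrm f ∧
        (l.map (gen act o)).prod = ⟨f, val act w⟩ := by
  induction w with
  | nil =>
    intro f hf
    obtain ⟨l, hl1, hl2⟩ := exists_lamp_word act o (f o)
    have hf' : f = Finsupp.single o (f o) := by
      ext x
      rw [Finsupp.single_apply]
      split_ifs with h
      · rw [h]
      · by_contra hx
        have : x ∈ f.support := by simpa using hx
        have := hf this
        simp at this
        exact h this.symm
    refine ⟨l, ?_, ?_⟩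
    · rw [hl1]
      conv_rhs => rw [hf', nrm_single]
      simp
    · rw [hl2, ← hf']
      rfl
  | cons s w ih =>
    intro f hf
    obtain ⟨l0, hl1, hl2⟩ := exists_lamp_word act o (f o)
    have h1 : ((f.erase o).equivMapDomain (act s)⁻¹).support ⊆ sites act o w := by
      intro x hx
      simp only [Finsupp.mem_support_iff, Finsupp.equivMapDomain_apply] at hx
      have hx' : (f.erase o) (act s x) ≠ 0 := hx
      have hne : act s x ≠ o := by
        intro h
        rw [h] at hx'
        simp at hx'
      rw [Finsupp.erase_ne hne] at hx'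
      have := hf (Finsupp.mem_support_iff.mpr hx')
      rw [sites_cons, Finset.mem_insert, Finset.mem_map_equiv] at this
      rcases this with h | h
      · exact absurd h hne
      · simpa using h
    obtain ⟨l, hl3, hl4⟩ := ih _ h1
    refine ⟨l0 ++ (Sum.inl s :: l), ?_, ?_⟩
    · have h2 : nrm f = (f o).natAbs + nrm (f.erase o) := by
        have e1 := nrm_eq_sum f (insert o f.support) (Finset.subset_insert _ _)
        have e2 := nrm_eq_sum (f.erase o) (insert o f.support) (by
          intro x hx
          simp at hx
          simp [hx.2])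
        have e3 := nrm_eq_sum (Finsupp.single o (f o)) (insert o f.support) (by
          intro x hx
          simp [Finsupp.single_apply] at hx
          simp [hx.1])
        rw [nrm_single] at e3
        rw [e1, e3, e2, ← Finset.sum_add_distrib]
        refine Finset.sum_congr rfl ?_
        intro x _
        by_cases h : x = o
        · subst h; simp
        · rw [Finsupp.erase_ne h, Finsupp.single_apply, if_neg (Ne.symm h)]
          simp
      simp only [List.length_append, List.length_cons, hl1, hl3, nrm_equivMapDomain]
      rw [h2]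
      ring
    · rw [List.map_append, List.prod_append, hl2, List.map_cons, List.prod_cons, hl4]
      refine Wr.ext ?_ ?_
      · ext x
        simp only [gen, Wr.mul_f, Finsupp.add_apply, Finsupp.equivMapDomain_apply,
          Finsupp.single_apply, zero_add]
        have e : (act s)⁻¹.symm ((act s).symm ((1 : Perm X).symm x)) = x := by
          have : (act s)⁻¹.symm = act s := rfl
          rw [this, symm_one_apply']
          simp
        rw [e]
        by_cases h : x = o
        · subst h; simp
        · rw [Finsupp.erase_ne h, if_neg (Ne.symm h)]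
          simp
      · simp [gen]

lemma mem_of_word (act : α → Perm X) (o : X) (l : List (α ⊕ Bool)) :
    ∃ w : List α, val act w = ((l.map (gen act o)).prod).g ∧
      ((l.map (gen act o)).prod).f.support ⊆ sites act o w ∧
      w.length + nrm ((l.map (gen act o)).prod).f ≤ l.length := by
  induction l with
  | nil => exact ⟨[], by simp, by simp, by simp⟩
  | cons x l ih =>
    obtain ⟨w, h1, h2, h3⟩ := ih
    rcases x with s | b
    · refine ⟨s :: w, ?_, ?_, ?_⟩
      · simp [gen, h1]
      · simp only [List.map_cons, List.prod_cons, gen, Wr.mul_f, zero_add]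
        intro x hx
        rw [sites_cons, Finset.mem_insert, Finset.mem_map_equiv]
        right
        apply h2
        simp only [Finsupp.mem_support_iff, Finsupp.equivMapDomain_apply] at hx ⊢
        exact hx
      · simp only [List.map_cons, List.prod_cons, gen, Wr.mul_f, zero_add, nrm_equivMapDomain,
          List.length_cons]
        omega
    · have hb : ∃ z : ℤ, z.natAbs = 1 ∧ gen act o (Sum.inr b) = ⟨Finsupp.single o z, 1⟩ := by
        cases b
        · exact ⟨-1, rfl, rfl⟩
        · exact ⟨1, rfl, rfl⟩
      obtain ⟨z, hz, hg⟩ := hb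
      have e : ((l.map (gen act o)).prod).f.equivMapDomain (1 : Perm X) =
          ((l.map (gen act o)).prod).f := by
        ext x
        rw [Finsupp.equivMapDomain_apply]
        rfl
      refine ⟨w, ?_, ?_, ?_⟩
      · simp [hg, h1]
      · simp only [List.map_cons, List.prod_cons, hg, Wr.mul_f, e]
        refine Finsupp.support_add.trans ?_
        refine Finset.union_subset ?_ h2
        refine Finsupp.support_single_subset.trans ?_
        simpa using base_mem_sites act o w
      · simp only [List.map_cons, List.prod_cons, hg, Wr.mul_f, e, List.length_cons]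
        have := nrm_add_le (Finsupp.single o z) ((l.map (gen act o)).prod).f
        rw [nrm_single, hz] at this
        omega

lemma mem_N_iff (act : α → Perm X) (o : X) (k : ℕ) (γ : Wr X) :
    γ ∈ N act o k ↔ ∃ l : List (α ⊕ Bool), l.length ≤ k ∧ (l.map (gen act o)).prod = γ := by
  constructor
  · rintro ⟨w, h1, h2, h3⟩
    obtain ⟨l, hl1, hl2⟩ := exists_word_of_mem act o w γ.f h2
    refine ⟨l, by omega, ?_⟩
    rw [hl2]
    exact Wr.ext rfl h1
  · rintro ⟨l, hl, rfl⟩
    obtain ⟨w, h1, h2, h3⟩ := mem_of_word act o l
    exact ⟨w, h1, h2, h3.trans hl⟩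

lemma N_finite [Finite α] (act : α → Perm X) (o : X) (k : ℕ) : (N act o k).Finite := by
  have : N act o k ⊆ (fun l : List (α ⊕ Bool) => (l.map (gen act o)).prod) ''
      {l | l.length ≤ k} := by
    intro γ hγ
    obtain ⟨l, h1, h2⟩ := (mem_N_iff act o k γ).1 hγ
    exact ⟨l, h1, h2⟩
  exact ((List.finite_length_le _ _).image _).subset this

/-- The generating map of the finitely generated group. -/
def gen' (act : α → Perm X) (o : X) : Option α → Wr X
  | none => ⟨Finsupp.single o 1, 1⟩
  | some s => ⟨0, act s⟩

lemma gen_eq (act : α → Perm X) (o : X) (hinv : ∀ s, act s * act s = 1) (x : Wr X) :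
    (x ∈ Set.range (gen' act o) ∨ x⁻¹ ∈ Set.range (gen' act o)) ↔
      ∃ y, gen act o y = x := by
  have hi : ∀ s, (act s)⁻¹ = act s := fun s => inv_eq_of_mul_eq_one_left (hinv s)
  constructor
  · rintro (⟨y, rfl⟩ | ⟨y, hy⟩)
    · rcases y with _ | s
      · exact ⟨Sum.inr true, rfl⟩
      · exact ⟨Sum.inl s, rfl⟩
    · rcases y with _ | s
      · refine ⟨Sum.inr false, ?_⟩
        rw [← inv_inj, ← hy]
        refine Wr.ext ?_ ?_
        · ext x
          simp [gen, gen', Finsupp.equivMapDomain_apply, Finsupp.single_apply, symm_one_apply']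
        · simp [gen, gen']
      · refine ⟨Sum.inl s, ?_⟩
        rw [← inv_inj, ← hy]
        refine Wr.ext ?_ ?_
        · ext x
          simp [gen, gen']
        · simp [gen, gen', hi]
  · rintro ⟨y, rfl⟩
    rcases y with s | b
    · exact Or.inl ⟨some s, rfl⟩
    · cases b
      · right
        refine ⟨none, ?_⟩
        refine Wr.ext ?_ ?_
        · ext x
          simp [gen, gen', Finsupp.equivMapDomain_apply, Finsupp.single_apply, symm_one_apply']
        · simp [gen, gen']
      · exact Or.inl ⟨none, rfl⟩

theorem exists_group [Fintype α] (act : α → Perm X) (o : X) (hinv : ∀ s, act s * act s = 1) :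
    ∃ (G : Type) (_ : Group G) (S : Finset G), Subgroup.closure (S : Set G) = ⊤ ∧
      ∀ k : ℕ, Set.ncard {g : G | ∃ l : List G, l.length ≤ k ∧
        (∀ x ∈ l, x ∈ S ∨ x⁻¹ ∈ S) ∧ l.prod = g} = (N act o k).ncard := by
  classical
  set R : Set (Wr X) := Set.range (gen' act o) with hR
  refine ⟨Subgroup.closure R, inferInstance,
    Finset.univ.image (fun i => (⟨gen' act o i, Subgroup.subset_closure ⟨i, rfl⟩⟩ :
      Subgroup.closure R)), ?_, ?_⟩
  · have : ((Finset.univ.image (fun i => (⟨gen' act o i, Subgroup.subset_closure ⟨i, rfl⟩⟩ :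
      Subgroup.closure R)) : Finset (Subgroup.closure R)) : Set (Subgroup.closure R)) =
        (fun x : Subgroup.closure R => (x : Wr X)) ⁻¹' R := by
      ext x
      simp only [Finset.coe_image, Finset.coe_univ, Set.image_univ, Set.mem_range,
        Set.mem_preimage, hR]
      constructor
      · rintro ⟨y, rfl⟩
        exact ⟨y, rfl⟩
      · rintro ⟨y, hy⟩
        exact ⟨y, Subtype.ext hy⟩
    rw [this]
    exact Subgroup.closure_closure_coe_preimage
  · intro k
    have hS : ∀ x : Subgroup.closure R, x ∈ (Finset.univ.image (fun i =>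
        (⟨gen' act o i, Subgroup.subset_closure ⟨i, rfl⟩⟩ : Subgroup.closure R))) ↔
          (x : Wr X) ∈ R := by
      intro x
      simp only [Finset.mem_image, Finset.mem_univ, true_and, hR, Set.mem_range]
      constructor
      · rintro ⟨y, rfl⟩
        exact ⟨y, rfl⟩
      · rintro ⟨y, hy⟩
        exact ⟨y, Subtype.ext hy⟩
    rw [← Set.ncard_image_of_injective _ (Subtype.val_injective (p := fun x => x ∈ Subgroup.closure R))]
    congr 1
    ext γ
    rw [mem_N_iff]
    simp only [Set.mem_image, Set.mem_ofPred_eq]
    constructor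
    · rintro ⟨x, ⟨l, h1, h2, rfl⟩, rfl⟩
      have h3 : ∀ y ∈ l.map (fun x : Subgroup.closure R => (x : Wr X)), ∃ z, gen act o z = y := by
        intro y hy
        rw [List.mem_map] at hy
        obtain ⟨x, hx, rfl⟩ := hy
        rw [← gen_eq act o hinv]
        have := h2 x hx
        rw [hS, hS] at this
        exact this
      obtain ⟨l', hl'⟩ := exists_list_map (gen act o) _ h3
      refine ⟨l', ?_, ?_⟩
      · have := congrArg List.length hl'
        simp at this
        omega
      · rw [hl']
        exact (map_list_prod (Subgroup.closure R).subtype l).symm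
    · rintro ⟨l, h1, rfl⟩
      have h3 : ∀ y ∈ l.map (gen act o), y ∈ Subgroup.closure R := by
        intro y hy
        rw [List.mem_map] at hy
        obtain ⟨x, hx, rfl⟩ := hy
        rcases (gen_eq act o hinv (gen act o x)).2 ⟨x, rfl⟩ with h | h
        · exact Subgroup.subset_closure h
        · rw [← Subgroup.inv_mem_iff]
          exact Subgroup.subset_closure h
      obtain ⟨l', hl'⟩ := exists_list_map (fun x : Subgroup.closure R => (x : Wr X)) _
        (fun y hy => ⟨⟨y, h3 y hy⟩, rfl⟩)
      refine ⟨l'.prod, ⟨l', ?_, ?_, rfl⟩, ?_⟩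
      · have := congrArg List.length hl'
        simp at this
        omega
      · intro x hx
        rw [hS, hS]
        have : (x : Wr X) ∈ l.map (gen act o) := by
          rw [← hl']
          exact List.mem_map_of_mem hx
        rw [List.mem_map] at this
        obtain ⟨y, _, hy⟩ := this
        have := (gen_eq act o hinv (x : Wr X)).2 ⟨y, hy⟩
        exact this
      · rw [← hl']
        exact (map_list_prod (Subgroup.closure R).subtype l')

end Pool.Agent.H.MP_e563b5_al
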