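import Mathlib

set_option autoImplicit false
set_option linter.unusedSectionVars false

open Equiv Finset

noncomputable section

namespace Pool.Agent.H.MP_e563b5_al

variable {X : Type} [DecidableEq X] {α : Type}

/-- The permutation that a word in the letters `α` represents. -/
def val (act : α → Perm X) (w : List α) : Perm X := (w.map act).prod

@[simp] lemma val_nil (act : α → Perm X) : val act [] = 1 := rfl

@[simp] lemma val_cons (act : α → Perm X) (s : α) (w : List α) :
    val act (s :: w) = act s * val act w := by simp [val]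

lemma val_append (act : α → Perm X) (u v : List α) :
    val act (u ++ v) = val act u * val act v := by simp [val]

/-- The inverted orbit of a word: all images of `o` under values of initial segments. -/
def sites (act : α → Perm X) (o : X) : List α → Finset X
  | [] => {o}
  | s :: w => insert o ((sites act o w).map (act s).toEmbedding)

@[simp] lemma sites_nil (act : α → Perm X) (o : X) : sites act o [] = {o} := rfl

lemma sites_cons (act : α → Perm X) (o : X) (s : α) (w : List α) :
    sites act o (s :: w) = insert o ((sites act o w).map (act s).toEmbedding) := rfl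

lemma base_mem_sites (act : α → Perm X) (o : X) (w : List α) : o ∈ sites act o w := by
  cases w <;> simp [sites]

lemma map_one_toEmbedding (s : Finset X) : s.map (1 : Perm X).toEmbedding = s := by
  ext x
  rw [Finset.mem_map_equiv]
  rfl

lemma map_mul_toEmbedding (p q : Perm X) (s : Finset X) :
    s.map (p * q).toEmbedding = (s.map q.toEmbedding).map p.toEmbedding := by
  ext x
  rw [Finset.mem_map_equiv, Finset.mem_map_equiv, Finset.mem_map_equiv]
  rfl

lemma sites_append (act : α → Perm X) (o : X) (u v : List α) :
    sites act o (u ++ v) = sites act o u ∪ (sites act o v).map (val act u).toEmbedding := by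
  induction u with
  | nil =>
    have := base_mem_sites act o v
    simp [map_one_toEmbedding, this]
  | cons s u ih =>
    rw [List.cons_append, sites_cons, ih, sites_cons, val_cons, map_mul_toEmbedding,
      Finset.map_union, Finset.insert_union]

lemma card_sites_le (act : α → Perm X) (o : X) (w : List α) :
    (sites act o w).card ≤ w.length + 1 := by
  induction w with
  | nil => simp
  | cons s w ih =>
    rw [sites_cons]
    refine (Finset.card_insert_le _ _).trans ?_
    simp only [Finset.card_map, List.length_cons]
    omega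

/-! ### The norm of a finitely supported function -/

/-- The `ℓ¹` norm. -/
def nrm (f : X →₀ ℤ) : ℕ := ∑ x ∈ f.support, (f x).natAbs

lemma nrm_eq_sum (f : X →₀ ℤ) (s : Finset X) (h : f.support ⊆ s) :
    nrm f = ∑ x ∈ s, (f x).natAbs := by
  unfold nrm
  refine Finset.sum_subset h ?_
  intro x _ hx
  simp at hx
  simp [hx]

@[simp] lemma nrm_zero : nrm (0 : X →₀ ℤ) = 0 := by simp [nrm]

lemma nrm_add_le (f g : X →₀ ℤ) : nrm (f + g) ≤ nrm f + nrm g := by
  rw [nrm_eq_sum (f + g) (f.support ∪ g.support) Finsupp.support_add,
    nrm_eq_sum f (f.support ∪ g.support) Finset.subset_union_left,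
    nrm_eq_sum g (f.support ∪ g.support) Finset.subset_union_right, ← Finset.sum_add_distrib]
  refine Finset.sum_le_sum ?_
  intro x _
  simpa using Int.natAbs_add_le (f x) (g x)

lemma nrm_neg (f : X →₀ ℤ) : nrm (-f) = nrm f := by
  simp [nrm]

lemma nrm_single (x : X) (z : ℤ) : nrm (Finsupp.single x z) = z.natAbs := by
  rw [nrm_eq_sum (Finsupp.single x z) {x} Finsupp.support_single_subset]
  simp

lemma nrm_equivMapDomain (e : Perm X) (f : X →₀ ℤ) :
    nrm (f.equivMapDomain e) = nrm f := by
  have h : (f.equivMapDomain e).support = f.support.map e.toEmbedding := rfl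
  unfold nrm
  rw [h, Finset.sum_map]
  simp [Finsupp.equivMapDomain_apply]

lemma card_support_le_nrm (f : X →₀ ℤ) : f.support.card ≤ nrm f := by
  unfold nrm
  rw [Finset.card_eq_sum_ones]
  refine Finset.sum_le_sum ?_
  intro x hx
  simp at hx
  have := Int.natAbs_pos.mpr hx
  omega

lemma nrm_filter_add (f : X →₀ ℤ) (p : X → Prop) [DecidablePred p] :
    nrm (f.filter p) + nrm (f.filter fun x => ¬ p x) = nrm f := by
  rw [nrm_eq_sum (f.filter p) f.support (by intro x hx; simp at hx ⊢; exact hx.1),
    nrm_eq_sum (f.filter fun x => ¬ p x) f.support (by intro x hx; simp at hx ⊢; exact hx.1),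
    ← Finset.sum_add_distrib]
  unfold nrm
  refine Finset.sum_congr rfl ?_
  intro x _
  by_cases h : p x <;> simp [h]

/-! ### The permutational wreath product -/

/-- Elements of the (full) permutational wreath product `ℤ ≀ Perm X`. -/
@[ext] structure Wr (X : Type) where
  /-- the lamp configuration -/
  f : X →₀ ℤ
  /-- the permutation -/
  g : Perm X

namespace Wr

instance : Mul (Wr X) := ⟨fun p q => ⟨p.f + q.f.equivMapDomain p.g, p.g * q.g⟩⟩
instance : One (Wr X) := ⟨⟨0, 1⟩⟩
instance : Inv (Wr X) := ⟨fun p => ⟨-(p.f.equivMapDomain p.g⁻¹), p.g⁻¹⟩⟩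

@[simp] lemma mul_f (p q : Wr X) : (p * q).f = p.f + q.f.equivMapDomain p.g := rfl
@[simp] lemma mul_g (p q : Wr X) : (p * q).g = p.g * q.g := rfl
@[simp] lemma one_f : (1 : Wr X).f = 0 := rfl
@[simp] lemma one_g : (1 : Wr X).g = 1 := rfl
@[simp] lemma inv_f (p : Wr X) : (p⁻¹).f = -(p.f.equivMapDomain p.g⁻¹) := rfl
@[simp] lemma inv_g (p : Wr X) : (p⁻¹).g = p.g⁻¹ := rfl

instance : Group (Wr X) := Group.ofLeftAxioms
  (by
    intro a b c
    refine Wr.ext ?_ ?_
    · ext x; simp [Finsupp.equivMapDomain_apply, Perm.mul_def, add_assoc]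
    · simp [mul_assoc])
  (by
    intro a
    refine Wr.ext ?_ ?_
    · ext x
      simp only [mul_f, one_f, one_g, zero_add, Finsupp.equivMapDomain_apply]
      rfl
    · simp)
  (by
    intro a
    refine Wr.ext ?_ ?_
    · ext x; simp
    · simp)

end Wr

/-- The generators of the wreath product: the letters, and the two lamp moves at `o`. -/
def gen (act : α → Perm X) (o : X) : α ⊕ Bool → Wr X
  | Sum.inl s => ⟨0, act s⟩
  | Sum.inr true => ⟨Finsupp.single o 1, 1⟩
  | Sum.inr false => ⟨Finsupp.single o (-1), 1⟩

/-- The ball of radius `k` in combinatorial form. -/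
def N (act : α → Perm X) (o : X) (k : ℕ) : Set (Wr X) :=
  {γ | ∃ w : List α, val act w = γ.g ∧ γ.f.support ⊆ sites act o w ∧ w.length + nrm γ.f ≤ k}

end Pool.Agent.H.MP_e563b5_al
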