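import Pool.Agent.H.MP_e563b5_al.Grig

set_option autoImplicit false
set_option linter.unusedSectionVars false

open Equiv Finset Filter Topology

noncomputable section

namespace Pool.Agent.H.MP_e563b5_al

/-- The set with even part `Y1` and odd part `Y0`. -/
def dbl (Y1 Y0 : Finset ℕ) : Finset ℕ :=
  Y1.image (fun m => 2 * m) ∪ Y0.image (fun m => 2 * m + 1)

@[simp] lemma even_mem_dbl (Y1 Y0 : Finset ℕ) (m : ℕ) : 2 * m ∈ dbl Y1 Y0 ↔ m ∈ Y1 := by
  simp only [dbl, Finset.mem_union, Finset.mem_image]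
  constructor
  · rintro (⟨a, h1, h2⟩ | ⟨a, h1, h2⟩)
    · have : a = m := by omega
      rwa [← this]
    · omega
  · intro h
    exact Or.inl ⟨m, h, rfl⟩

@[simp] lemma odd_mem_dbl (Y1 Y0 : Finset ℕ) (m : ℕ) : 2 * m + 1 ∈ dbl Y1 Y0 ↔ m ∈ Y0 := by
  simp only [dbl, Finset.mem_union, Finset.mem_image]
  constructor
  · rintro (⟨a, h1, h2⟩ | ⟨a, h1, h2⟩)
    · omega
    · have : a = m := by omega
      rwa [← this]
  · intro h
    exact Or.inr ⟨m, h, rfl⟩

lemma finset_ext_bin {Y Z : Finset ℕ} (h0 : ∀ m, 2 * m ∈ Y ↔ 2 * m ∈ Z)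
    (h1 : ∀ m, 2 * m + 1 ∈ Y ↔ 2 * m + 1 ∈ Z) : Y = Z := by
  ext n
  rcases Nat.even_or_odd' n with ⟨m, rfl | rfl⟩
  · exact h0 m
  · exact h1 m

lemma finset_subset_bin {Y Z : Finset ℕ} (h0 : ∀ m, 2 * m ∈ Y → 2 * m ∈ Z)
    (h1 : ∀ m, 2 * m + 1 ∈ Y → 2 * m + 1 ∈ Z) : Y ⊆ Z := by
  intro n
  rcases Nat.even_or_odd' n with ⟨m, rfl | rfl⟩
  · exact h0 m
  · exact h1 m

lemma bi_symm_even (p q : Perm ℕ) (m : ℕ) : (bi p q).symm (2 * m) = 2 * p.symm m := by
  rw [Equiv.symm_apply_eq, bi_even]
  simp

lemma bi_symm_odd (p q : Perm ℕ) (m : ℕ) : (bi p q).symm (2 * m + 1) = 2 * q.symm m + 1 := by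
  rw [Equiv.symm_apply_eq, bi_odd]
  simp

lemma A_symm_even (m : ℕ) : A.symm (2 * m) = 2 * m + 1 := by
  rw [Equiv.symm_apply_eq, A_odd]

lemma A_symm_odd (m : ℕ) : A.symm (2 * m + 1) = 2 * m := by
  rw [Equiv.symm_apply_eq, A_even]

lemma map_bi_dbl (p q : Perm ℕ) (Y1 Y0 : Finset ℕ) :
    (dbl Y1 Y0).map (bi p q).toEmbedding = dbl (Y1.map p.toEmbedding) (Y0.map q.toEmbedding) := by
  apply finset_ext_bin <;> intro m
  · rw [Finset.mem_map_equiv, bi_symm_even, even_mem_dbl, even_mem_dbl, Finset.mem_map_equiv]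
  · rw [Finset.mem_map_equiv, bi_symm_odd, odd_mem_dbl, odd_mem_dbl, Finset.mem_map_equiv]

lemma map_A_dbl (Y1 Y0 : Finset ℕ) :
    (dbl Y1 Y0).map A.toEmbedding = dbl Y0 Y1 := by
  apply finset_ext_bin <;> intro m
  · rw [Finset.mem_map_equiv, A_symm_even, even_mem_dbl, odd_mem_dbl]
  · rw [Finset.mem_map_equiv, A_symm_odd, even_mem_dbl, odd_mem_dbl]

lemma insert_zero_dbl (Y1 Y0 : Finset ℕ) : insert 0 (dbl Y1 Y0) = dbl (insert 0 Y1) Y0 := by
  apply finset_ext_bin <;> intro m
  · rw [Finset.mem_insert, even_mem_dbl, even_mem_dbl, Finset.mem_insert]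
    simp
  · rw [Finset.mem_insert, odd_mem_dbl, odd_mem_dbl]
    simp

lemma card_dbl (Y1 Y0 : Finset ℕ) : (dbl Y1 Y0).card = Y1.card + Y0.card := by
  rw [dbl, Finset.card_union_of_disjoint, Finset.card_image_of_injective,
    Finset.card_image_of_injective]
  · intro a b h
    simp only at h
    omega
  · intro a b h
    simp only at h
    omega
  · rw [Finset.disjoint_left]
    intro x h1 h2
    rw [Finset.mem_image] at h1 h2
    obtain ⟨a, _, ha⟩ := h1
    obtain ⟨b, _, hb⟩ := h2
    omega

lemma dbl_mono {Y1 Y0 Z1 Z0 : Finset ℕ} (h1 : Y1 ⊆ Z1) (h0 : Y0 ⊆ Z0) :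
    dbl Y1 Y0 ⊆ dbl Z1 Z0 := by
  apply finset_subset_bin <;> intro m
  · simpa using fun h => h1 h
  · simpa using fun h => h0 h

lemma exists_dbl {Y O1 O0 : Finset ℕ} (h : Y ⊆ dbl O1 O0) :
    ∃ Y1 Y0, Y1 ⊆ O1 ∧ Y0 ⊆ O0 ∧ Y = dbl Y1 Y0 := by
  refine ⟨O1.filter (fun m => 2 * m ∈ Y), O0.filter (fun m => 2 * m + 1 ∈ Y),
    Finset.filter_subset _ _, Finset.filter_subset _ _, ?_⟩
  apply finset_ext_bin <;> intro m
  · rw [even_mem_dbl, Finset.mem_filter]
    constructor
    · intro hm
      exact ⟨by simpa using h hm, hm⟩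
    · exact fun hm => hm.2
  · rw [odd_mem_dbl, Finset.mem_filter]
    constructor
    · intro hm
      exact ⟨by simpa using h hm, hm⟩
    · exact fun hm => hm.2

lemma ea_not (b : Bool) : A * ea b = ea (!b) := by
  cases b
  · simp [ea]
  · simp [ea, A_mul_A]

lemma ea_xor (b c : Bool) : ea b * ea c = ea (xor b c) := by
  cases b <;> cases c <;> simp [ea, A_mul_A]

/-- Optional letter `a`. -/
def pre (b : Bool) : List (Option V) := if b then [none] else []

lemma val_pre (b : Bool) (u : List (Option V)) :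
    val gact (pre b ++ u) = ea b * val gact u := by
  cases b <;> simp [pre, ea]

lemma sites_pre (b : Bool) (u : List (Option V)) :
    sites gact 0 (pre b ++ u) = insert 0 ((sites gact 0 u).map (ea b).toEmbedding) := by
  cases b
  · have := base_mem_sites gact 0 u
    simp [pre, ea, map_one_toEmbedding, this]
  · simp [pre, ea, sites_cons]

/-- Exact description of the sections of a word. -/
lemma sections_exact (w : List (Option V)) :
    (∃ x : V, val gact w = vperm x ∧ sites gact 0 w = {0}) ∨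
    (∃ (u1 u0 : List (Option V)) (e0 e0' e1' ε : Bool),
      val gact w = bi (val gact u1 * ea e1') (ea e0 * val gact u0 * ea e0') * ea ε ∧
      sites gact 0 w = dbl (sites gact 0 u1) ((sites gact 0 u0).map (ea e0).toEmbedding)) := by
  induction w with
  | nil =>
    left
    exact ⟨V.e, by simp [vperm_e], rfl⟩
  | cons s w ih =>
    rcases s with _ | y
    · right
      rcases ih with ⟨x, h1, h2⟩ | ⟨u1, u0, e0, e0', e1', ε, h1, h2⟩
      · refine ⟨[], [some (V.psi x)], false, false, V.phi x, true, ?_, ?_⟩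
        · rw [val_cons, h1, vperm_eq, gact_none, A_mul_bi]
          simp [ea]
        · rw [sites_cons, h2, gact_none]
          have h3 : sites gact 0 [some (V.psi x)] = {0} := by
            rw [sites_cons]
            simp
          rw [h3]
          decide
      · refine ⟨pre e0 ++ u0, u1, false, e1', e0', !ε, ?_, ?_⟩
        · rw [val_cons, h1, gact_none, ← mul_assoc, A_mul_bi, mul_assoc, ea_not, val_pre]
          simp [ea]
        · rw [sites_cons, h2, gact_none, map_A_dbl, insert_zero_dbl, sites_pre]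
          have : (ea false) = 1 := rfl
          rw [this, map_one_toEmbedding]
    · rcases ih with ⟨x, h1, h2⟩ | ⟨u1, u0, e0, e0', e1', ε, h1, h2⟩
      · left
        refine ⟨V.mul y x, ?_, ?_⟩
        · rw [val_cons, h1, vperm_mul]
          rfl
        · rw [sites_cons, h2]
          simp
      · right
        refine ⟨some (V.psi y) :: u1, u0, xor (V.phi y) e0, e0', e1', ε, ?_, ?_⟩
        · rw [val_cons, h1, gact_some, vperm_eq, ← mul_assoc, bi_mul, val_cons, gact_some,
            ← ea_xor]
          simp only [mul_assoc]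
        · rw [sites_cons, h2, gact_some, vperm_eq, map_bi_dbl, insert_zero_dbl, sites_cons,
            gact_some, ← ea_xor, map_mul_toEmbedding]

lemma H2_gact : H2 gact 0 := by
  intro R
  induction R with
  | zero =>
    refine Set.Finite.subset Set.finite_empty ?_
    rintro p ⟨w, _, _, h3⟩
    have := Finset.card_pos.2 ⟨_, base_mem_sites gact 0 w⟩
    omega
  | succ R ih =>
    set F1 : Set (Finset ℕ × Perm ℕ) :=
      (((({0} : Finset ℕ).powerset : Finset (Finset ℕ)) : Set (Finset ℕ)) ×ˢ Set.range vperm)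
      with hF1
    set F2 : Set (Finset ℕ × Perm ℕ) := (fun q : ((Finset ℕ × Perm ℕ) × (Finset ℕ × Perm ℕ)) ×
        ((Bool × Bool) × (Bool × Bool)) =>
        ((dbl q.1.1.1 (q.1.2.1.map (ea q.2.1.1).toEmbedding),
          bi (q.1.1.2 * ea q.2.2.1) (ea q.2.1.1 * q.1.2.2 * ea q.2.1.2) * ea q.2.2.2) :
            Finset ℕ × Perm ℕ)) '' ((PR gact 0 R ×ˢ PR gact 0 R) ×ˢ Set.univ) with hF2
    have hsub : PR gact 0 (R + 1) ⊆ F1 ∪ F2 := by
      rintro ⟨Y, g⟩ ⟨w, h1, h2, h3⟩
      simp only at h1 h2
      rcases sections_exact w with ⟨x, h4, h5⟩ | ⟨u1, u0, e0, e0', e1', ε, h4, h5⟩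
      · left
        rw [hF1]
        refine ⟨?_, ⟨x, ?_⟩⟩
        · rw [Finset.mem_coe, Finset.mem_powerset, ← h5]
          exact h2
        · rw [← h1, h4]
      · right
        rw [h5, card_dbl, Finset.card_map] at h3
        have hc1 := Finset.card_pos.2 ⟨_, base_mem_sites gact 0 u1⟩
        have hc0 := Finset.card_pos.2 ⟨_, base_mem_sites gact 0 u0⟩
        rw [h5] at h2
        obtain ⟨Y1, Y0, hY1, hY0, rfl⟩ := exists_dbl h2
        rw [hF2]
        refine ⟨(((Y1, val gact u1), (Y0.map (ea e0).symm.toEmbedding, val gact u0)),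
          ((e0, e0'), (e1', ε))), ⟨⟨⟨u1, rfl, hY1, by omega⟩, ⟨u0, rfl, ?_, by omega⟩⟩,
            Set.mem_univ _⟩, ?_⟩
        · intro x hx
          rw [Finset.mem_map_equiv] at hx
          have := hY0 hx
          rw [Finset.mem_map_equiv] at this
          simpa using this
        · simp only
          rw [← h1, h4]
          congr 2
          ext x
          rw [Finset.mem_map_equiv, Finset.mem_map_equiv]
          simp
    refine Set.Finite.subset (Set.Finite.union ?_ ?_) hsub
    · exact (Finset.finite_toSet _).prod (Set.finite_range _)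
    · exact ((ih.prod ih).prod Set.finite_univ).image _

/-- Lifting letters. -/
def sig : Option V → List (Option V)
  | none => [none, some V.c, none]
  | some V.e => [some V.e]
  | some V.b => [some V.d]
  | some V.c => [some V.b]
  | some V.d => [some V.c]

lemma sig_even (s : Option V) (m : ℕ) : val gact (sig s) (2 * m) = 2 * gact s m := by
  rcases s with _ | y
  · simp only [sig, val_cons, gact_none, gact_some, val_nil, mul_one, Perm.mul_apply, A_even]
    rw [vperm_apply, vfun_odd]
    simp [V.phi]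
  · cases y <;> simp only [sig, val_cons, gact_some, val_nil, mul_one] <;>
      rw [vperm_apply, vfun_even] <;> rfl

lemma sites_sig (w : List (Option V)) :
    (sites gact 0 w).image (fun m => 2 * m) ⊆ sites gact 0 (w.flatMap sig) := by
  induction w with
  | nil => simp
  | cons s w ih =>
    intro x hx
    rw [Finset.mem_image] at hx
    obtain ⟨m, hm, rfl⟩ := hx
    rw [sites_cons, Finset.mem_insert, Finset.mem_map_equiv] at hm
    rw [List.flatMap_cons, sites_append, Finset.mem_union]
    rcases hm with rfl | hm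
    · left
      exact base_mem_sites _ _ _
    · right
      rw [Finset.mem_map_equiv]
      have h1 : (val gact (sig s)).symm (2 * m) = 2 * (gact s).symm m := by
        rw [Equiv.symm_apply_eq, sig_even]
        simp
      rw [h1]
      exact ih (Finset.mem_image.2 ⟨_, hm, rfl⟩)

lemma H3_gact : H3 gact 0 := by
  intro n
  suffices h : ∃ w : List (Option V), n ≤ (sites gact 0 (none :: w)).card by
    obtain ⟨w, hw⟩ := h
    exact ⟨_, hw⟩
  induction n with
  | zero => exact ⟨[], Nat.zero_le _⟩
  | succ n ih =>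
    obtain ⟨w, hw⟩ := ih
    refine ⟨some V.c :: none :: w.flatMap sig, ?_⟩
    have h1 : none :: some V.c :: none :: w.flatMap sig = (none :: w).flatMap sig := rfl
    rw [h1]
    have h2 : insert 1 ((sites gact 0 (none :: w)).image (fun m => 2 * m)) ⊆
        sites gact 0 ((none :: w).flatMap sig) := by
      intro x hx
      rw [Finset.mem_insert] at hx
      rcases hx with rfl | hx
      · rw [← h1, sites_cons, Finset.mem_insert, Finset.mem_map_equiv, gact_none]
        right
        have : A.symm 1 = 0 := A_symm_odd 0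
        rw [this]
        exact base_mem_sites _ _ _
      · exact sites_sig _ hx
    have h3 := Finset.card_le_card h2
    rw [Finset.card_insert_of_notMem, Finset.card_image_of_injective] at h3
    · omega
    · intro a b h
      simp only at h
      omega
    · rw [Finset.mem_image]
      rintro ⟨a, _, ha⟩
      omega

end Pool.Agent.H.MP_e563b5_al
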