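import Pool.Agent.H.MP_e563b5_al.Ball

set_option autoImplicit false
set_option linter.unusedSectionVars false

open Equiv Finset
open scoped Classical

noncomputable section

namespace Pool.Agent.H.MP_e563b5_al

variable {X : Type} [DecidableEq X] {α : Type} [Finite α]

/-- The ball as a finite set. -/
def Ng (act : α → Perm X) (o : X) (k : ℕ) : Finset (Wr X) := (N_finite act o k).toFinset

lemma mem_Ng (act : α → Perm X) (o : X) (k : ℕ) (γ : Wr X) : γ ∈ Ng act o k ↔ γ ∈ N act o k := by
  simp [Ng]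

lemma ncard_N (act : α → Perm X) (o : X) (k : ℕ) : (N act o k).ncard = (Ng act o k).card :=
  Set.ncard_eq_toFinset_card _ _

/-- The sphere of radius `k+1`. -/
def Sg (act : α → Perm X) (o : X) (k : ℕ) : Finset (Wr X) := Ng act o (k + 1) \ Ng act o k

lemma sphere_word {act : α → Perm X} {o : X} {k : ℕ} {γ : Wr X} (h : γ ∈ Sg act o k) :
    ∃ w : List α, val act w = γ.g ∧ γ.f.support ⊆ sites act o w ∧
      w.length + nrm γ.f = k + 1 := by
  rw [Sg, Finset.mem_sdiff, mem_Ng, mem_Ng] at h
  obtain ⟨⟨w, h1, h2, h3⟩, h4⟩ := h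
  refine ⟨w, h1, h2, ?_⟩
  by_contra h5
  exact h4 ⟨w, h1, h2, by omega⟩

lemma sphere_min {act : α → Perm X} {o : X} {k : ℕ} {γ : Wr X} (h : γ ∈ Sg act o k)
    (w : List α) (h1 : val act w = γ.g) (h2 : γ.f.support ⊆ sites act o w) :
    k + 1 ≤ w.length + nrm γ.f := by
  rw [Sg, Finset.mem_sdiff, mem_Ng, mem_Ng] at h
  by_contra h5
  exact h.2 ⟨w, h1, h2, by omega⟩

/-- Two elements of the sphere with the same support and the same permutation have the same
norm. -/
lemma sphere_nrm {act : α → Perm X} {o : X} {k : ℕ} {γ δ : Wr X} (h : γ ∈ Sg act o k)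
    (h' : δ ∈ Sg act o k) (hg : γ.g = δ.g) (hs : γ.f.support = δ.f.support) :
    nrm γ.f = nrm δ.f := by
  obtain ⟨w, h1, h2, h3⟩ := sphere_word h
  obtain ⟨w', h1', h2', h3'⟩ := sphere_word h'
  have := sphere_min h w' (by rw [hg, h1']) (by rw [hs]; exact h2')
  have := sphere_min h' w (by rw [← hg, h1]) (by rw [← hs]; exact h2)
  omega

/-- Part of the sphere: `n` lamps, large energy. -/
def GoodF (act : α → Perm X) (o : X) (E k n : ℕ) : Finset (Wr X) :=
  (Sg act o k).filter fun γ => γ.f.support.card = n ∧ (E + 1) * n ≤ nrm γ.f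

/-- Part of the ball with `n` lamps. -/
def NF (act : α → Perm X) (o : X) (k n : ℕ) : Finset (Wr X) :=
  (Ng act o k).filter fun γ => γ.f.support.card = n

/-- Reduction of one lamp. -/
def Red (γ δ : Wr X) : Prop :=
  δ.g = γ.g ∧ δ.f.support = γ.f.support ∧ ∃ x ∈ γ.f.support,
    (∀ y, y ≠ x → δ.f y = γ.f y) ∧ (δ.f x).sign = (γ.f x).sign ∧
      (δ.f x).natAbs < (γ.f x).natAbs

lemma good_above (act : α → Perm X) (o : X) (E k n : ℕ) (γ : Wr X)
    (hγ : γ ∈ GoodF act o E k n) :
    E * n ≤ ((NF act o k n).bipartiteAbove Red γ).card := by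
  rw [GoodF, Finset.mem_filter] at hγ
  obtain ⟨hS, hc, hm⟩ := hγ
  obtain ⟨w, hw1, hw2, hw3⟩ := sphere_word hS
  set T := γ.f.support.sigma (fun x => Finset.Ico 1 (γ.f x).natAbs) with hT
  have hTc : E * n ≤ T.card := by
    rw [hT, Finset.card_sigma]
    simp only [Nat.card_Ico]
    have h1 : ∑ x ∈ γ.f.support, ((γ.f x).natAbs - 1) + γ.f.support.card = nrm γ.f := by
      unfold nrm
      rw [Finset.card_eq_sum_ones, ← Finset.sum_add_distrib]
      refine Finset.sum_congr rfl ?_
      intro x hx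
      have := Int.natAbs_pos.mpr (Finsupp.mem_support_iff.mp hx)
      omega
    rw [hc] at h1
    have : (E + 1) * n = E * n + n := by ring
    omega
  refine hTc.trans ?_
  refine Finset.card_le_card_of_injOn
    (fun p => (⟨γ.f.update p.1 ((γ.f p.1).sign * (p.2 : ℤ)), γ.g⟩ : Wr X)) ?_ ?_
  · rintro ⟨x, j⟩ hp
    rw [hT, Finset.mem_coe, Finset.mem_sigma, Finset.mem_Ico] at hp
    obtain ⟨hx, hj1, hj2⟩ := hp
    simp only at hx hj1 hj2
    have hx0 : γ.f x ≠ 0 := Finsupp.mem_support_iff.mp hx
    have hsgn : (γ.f x).sign ≠ 0 := by rwa [Ne, Int.sign_eq_zero_iff_zero]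
    have hne : (γ.f x).sign * (j : ℤ) ≠ 0 := by
      refine mul_ne_zero hsgn ?_
      omega
    have hsupp : (γ.f.update x ((γ.f x).sign * (j : ℤ))).support = γ.f.support := by
      rw [Finsupp.support_update_ne_zero _ _ hne, Finset.insert_eq_self]
      exact hx
    have hval : ∀ y, y ≠ x → (γ.f.update x ((γ.f x).sign * (j : ℤ))) y = γ.f y := by
      intro y hy
      rw [Finsupp.coe_update, Function.update_of_ne hy]
    have hvalx : (γ.f.update x ((γ.f x).sign * (j : ℤ))) x = (γ.f x).sign * (j : ℤ) := by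
      rw [Finsupp.coe_update, Function.update_self]
    have habs : ((γ.f x).sign * (j : ℤ)).natAbs = j := by
      rw [Int.natAbs_mul, Int.natAbs_sign_of_ne_zero hx0]
      simp
    have hnrm : nrm (γ.f.update x ((γ.f x).sign * (j : ℤ))) < nrm γ.f := by
      unfold nrm
      rw [hsupp]
      refine Finset.sum_lt_sum ?_ ⟨x, hx, ?_⟩
      · intro y _
        by_cases hy : y = x
        · subst hy
          rw [hvalx, habs]
          omega
        · rw [hval y hy]
      · rw [hvalx, habs]
        exact hj2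
    rw [Finset.mem_coe, Finset.mem_bipartiteAbove, NF, Finset.mem_filter, mem_Ng]
    refine ⟨⟨⟨w, hw1, ?_, ?_⟩, ?_⟩, rfl, hsupp, x, hx, hval, ?_, ?_⟩
    · rw [hsupp]
      exact hw2
    · simp only
      omega
    · rw [hsupp, hc]
    · rw [hvalx, Int.sign_mul, Int.sign_natCast_of_ne_zero (by omega), Int.sign_sign]
      simp
    · rw [hvalx, habs]
      exact hj2
  · rintro ⟨x, j⟩ hp ⟨y, i⟩ hq heq
    rw [hT, Finset.mem_coe, Finset.mem_sigma, Finset.mem_Ico] at hp hq
    obtain ⟨hx, hj1, hj2⟩ := hp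
    obtain ⟨hy, hi1, hi2⟩ := hq
    simp only at hx hj1 hj2 hy hi1 hi2
    simp only [Wr.mk.injEq, and_true] at heq
    have hx0 : γ.f x ≠ 0 := Finsupp.mem_support_iff.mp hx
    have h1 := DFunLike.congr_fun heq x
    have habs : ((γ.f x).sign * (j : ℤ)).natAbs = j := by
      rw [Int.natAbs_mul, Int.natAbs_sign_of_ne_zero hx0]
      simp
    by_cases hxy : x = y
    · subst hxy
      have habs' : ((γ.f x).sign * (i : ℤ)).natAbs = i := by
        rw [Int.natAbs_mul, Int.natAbs_sign_of_ne_zero hx0]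
        simp
      rw [Finsupp.coe_update, Finsupp.coe_update, Function.update_self, Function.update_self] at h1
      have := congrArg Int.natAbs h1
      rw [habs, habs'] at this
      rw [this]
    · exfalso
      rw [Finsupp.coe_update, Finsupp.coe_update, Function.update_self,
        Function.update_of_ne hxy] at h1
      have := congrArg Int.natAbs h1
      rw [habs] at this
      omega

lemma good_below (act : α → Perm X) (o : X) (E k n : ℕ) (δ : Wr X)
    (hδ : δ ∈ NF act o k n) :
    ((GoodF act o E k n).bipartiteBelow Red δ).card ≤ n := by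
  rw [NF, Finset.mem_filter] at hδ
  have hsub : (GoodF act o E k n).bipartiteBelow Red δ ⊆
      δ.f.support.biUnion (fun x => (GoodF act o E k n).filter (fun γ =>
        δ.g = γ.g ∧ δ.f.support = γ.f.support ∧
        (∀ y, y ≠ x → δ.f y = γ.f y) ∧ (δ.f x).sign = (γ.f x).sign)) := by
    intro γ hγ
    rw [Finset.mem_bipartiteBelow] at hγ
    obtain ⟨h1, h2, h3, x, hx, h4, h5, h6⟩ := hγ
    rw [Finset.mem_biUnion]
    refine ⟨x, by rw [h3]; exact hx, ?_⟩
    rw [Finset.mem_filter]
    exact ⟨h1, h2, h3, h4, h5⟩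
  refine (Finset.card_le_card hsub).trans ?_
  refine (Finset.card_biUnion_le_card_mul _ _ 1 ?_).trans (by rw [hδ.2]; simp)
  intro x hx
  rw [Finset.card_le_one]
  intro γ hγ γ' hγ'
  rw [Finset.mem_filter] at hγ hγ'
  obtain ⟨h1, h2, h3, h4, h5⟩ := hγ
  obtain ⟨h1', h2', h3', h4', h5'⟩ := hγ'
  rw [GoodF, Finset.mem_filter] at h1 h1'
  have hn := sphere_nrm h1.1 h1'.1 (h2.symm.trans h2') (h3.symm.trans h3')
  refine Wr.ext ?_ (h2.symm.trans h2')
  ext y
  by_cases hy : y = x
  · subst hy
    have e1 : nrm γ.f = (γ.f y).natAbs + ∑ z ∈ δ.f.support.erase y, (δ.f z).natAbs := by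
      unfold nrm
      rw [← h3, ← Finset.add_sum_erase _ _ hx]
      congr 1
      refine Finset.sum_congr rfl ?_
      intro z hz
      rw [h4 z (Finset.ne_of_mem_erase hz)]
    have e2 : nrm γ'.f = (γ'.f y).natAbs + ∑ z ∈ δ.f.support.erase y, (δ.f z).natAbs := by
      unfold nrm
      rw [← h3', ← Finset.add_sum_erase _ _ hx]
      congr 1
      refine Finset.sum_congr rfl ?_
      intro z hz
      rw [h4' z (Finset.ne_of_mem_erase hz)]
    have e3 : (γ.f y).natAbs = (γ'.f y).natAbs := by omega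
    have e4 : (γ.f y).sign = (γ'.f y).sign := by rw [← h5, ← h5']
    rw [← Int.sign_mul_natAbs (γ.f y), ← Int.sign_mul_natAbs (γ'.f y), e3, e4]
  · rw [← h4 y hy, ← h4' y hy]

lemma good_card_n (act : α → Perm X) (o : X) (E k n : ℕ) (hn : 1 ≤ n) :
    E * (GoodF act o E k n).card ≤ (NF act o k n).card := by
  have h := Finset.card_mul_le_card_mul (s := GoodF act o E k n) (t := NF act o k n)
    (m := E * n) (n := n) Red (fun γ hγ => good_above act o E k n γ hγ)
    (fun δ hδ => good_below act o E k n δ hδ)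
  have h2 : (E * (GoodF act o E k n).card) * n ≤ (NF act o k n).card * n := by
    calc (E * (GoodF act o E k n).card) * n = (GoodF act o E k n).card * (E * n) := by ring
      _ ≤ _ := h
  exact Nat.le_of_mul_le_mul_right h2 hn

/-- The part of the sphere with large energy compared to the number of lamps. -/
def Good (act : α → Perm X) (o : X) (E k : ℕ) : Finset (Wr X) :=
  (Sg act o k).filter fun γ => 1 ≤ γ.f.support.card ∧ (E + 1) * γ.f.support.card ≤ nrm γ.f

theorem good_card (act : α → Perm X) (o : X) (E k : ℕ) :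
    E * (Good act o E k).card ≤ (Ng act o k).card := by
  have h1 : (Good act o E k).card =
      ∑ n ∈ Finset.Icc 1 (k + 2), ((Good act o E k).filter fun γ => γ.f.support.card = n).card := by
    refine Finset.card_eq_sum_card_fiberwise ?_
    intro γ hγ
    rw [Finset.mem_coe, Good, Finset.mem_filter] at hγ
    obtain ⟨w, hw1, hw2, hw3⟩ := sphere_word hγ.1
    have := card_support_le_nrm γ.f
    simp only [Finset.coe_Icc, Set.mem_Icc]
    omega
  have h2 : ∀ n ∈ Finset.Icc 1 (k + 2),
      E * ((Good act o E k).filter fun γ => γ.f.support.card = n).card ≤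
        ((Ng act o k).filter fun γ => γ.f.support.card = n).card := by
    intro n hn
    rw [Finset.mem_Icc] at hn
    refine le_trans ?_ (good_card_n act o E k n hn.1)
    refine Nat.mul_le_mul_left _ (Finset.card_le_card ?_)
    intro γ hγ
    rw [Finset.mem_filter, Good, Finset.mem_filter] at hγ
    rw [GoodF, Finset.mem_filter]
    refine ⟨hγ.1.1, hγ.2, ?_⟩
    rw [← hγ.2]
    exact hγ.1.2.2
  rw [h1, Finset.mul_sum]
  refine (Finset.sum_le_sum h2).trans ?_
  rw [← Finset.card_biUnion]
  · refine Finset.card_le_card ?_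
    intro γ hγ
    rw [Finset.mem_biUnion] at hγ
    obtain ⟨n, _, hn⟩ := hγ
    exact (Finset.mem_filter.1 hn).1
  · intro n _ m _ hnm
    change Disjoint _ _
    rw [Finset.disjoint_left]
    intro γ h3 h4
    rw [Finset.mem_filter] at h3 h4
    exact hnm (h3.2.symm.trans h4.2)

end Pool.Agent.H.MP_e563b5_al
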