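import Pool.Agent.H.MP_e563b5_al.Assemble

set_option autoImplicit false
set_option linter.unusedSectionVars false

open Equiv Finset Filter Topology

noncomputable section

namespace Pool.Agent.H.MP_e563b5_al

/-- `bi p q` acts as `p` on the even numbers and as `q` on the odd numbers. -/
def bi (p q : Perm ℕ) : Perm ℕ where
  toFun n := if n % 2 = 0 then 2 * p (n / 2) else 2 * q (n / 2) + 1
  invFun n := if n % 2 = 0 then 2 * p.symm (n / 2) else 2 * q.symm (n / 2) + 1
  left_inv n := by
    rcases Nat.even_or_odd' n with ⟨m, rfl | rfl⟩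
    · simp
    · have h1 : (2 * m + 1) % 2 = 1 := by omega
      have h2 : (2 * m + 1) / 2 = m := by omega
      have h3 : (2 * q m + 1) % 2 = 1 := by omega
      have h4 : (2 * q m + 1) / 2 = q m := by omega
      simp [h1, h2, h3, h4]
  right_inv n := by
    rcases Nat.even_or_odd' n with ⟨m, rfl | rfl⟩
    · simp
    · have h1 : (2 * m + 1) % 2 = 1 := by omega
      have h2 : (2 * m + 1) / 2 = m := by omega
      have h3 : (2 * q.symm m + 1) % 2 = 1 := by omega
      have h4 : (2 * q.symm m + 1) / 2 = q.symm m := by omega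
      simp [h1, h2, h3, h4]

@[simp] lemma bi_even (p q : Perm ℕ) (m : ℕ) : bi p q (2 * m) = 2 * p m := by
  simp [bi]

@[simp] lemma bi_odd (p q : Perm ℕ) (m : ℕ) : bi p q (2 * m + 1) = 2 * q m + 1 := by
  have h1 : (2 * m + 1) % 2 = 1 := by omega
  have h2 : (2 * m + 1) / 2 = m := by omega
  simp [bi, h1, h2]

/-- The flip of the last binary digit. -/
def A : Perm ℕ where
  toFun n := if n % 2 = 0 then n + 1 else n - 1
  invFun n := if n % 2 = 0 then n + 1 else n - 1
  left_inv n := by
    rcases Nat.even_or_odd' n with ⟨m, rfl | rfl⟩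
    · have h1 : (2 * m + 1) % 2 = 1 := by omega
      simp [h1]
    · have h1 : (2 * m + 1) % 2 = 1 := by omega
      simp [h1]
  right_inv n := by
    rcases Nat.even_or_odd' n with ⟨m, rfl | rfl⟩
    · have h1 : (2 * m + 1) % 2 = 1 := by omega
      simp [h1]
    · have h1 : (2 * m + 1) % 2 = 1 := by omega
      simp [h1]

@[simp] lemma A_even (m : ℕ) : A (2 * m) = 2 * m + 1 := by simp [A]

@[simp] lemma A_odd (m : ℕ) : A (2 * m + 1) = 2 * m := by
  have h1 : (2 * m + 1) % 2 = 1 := by omega
  simp [A, h1]

lemma perm_ext_bin {p q : Perm ℕ} (h0 : ∀ m, p (2 * m) = q (2 * m))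
    (h1 : ∀ m, p (2 * m + 1) = q (2 * m + 1)) : p = q := by
  ext n
  rcases Nat.even_or_odd' n with ⟨m, rfl | rfl⟩
  · exact h0 m
  · exact h1 m

lemma bi_mul (p q p' q' : Perm ℕ) : bi p q * bi p' q' = bi (p * p') (q * q') := by
  apply perm_ext_bin <;> intro m <;> simp

lemma bi_one : bi 1 1 = 1 := by
  apply perm_ext_bin <;> intro m <;> simp

lemma A_mul_A : A * A = 1 := by
  apply perm_ext_bin <;> intro m <;> simp

lemma A_mul_bi (p q : Perm ℕ) : A * bi p q = bi q p * A := by
  apply perm_ext_bin <;> intro m <;> simp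

/-- The Klein four group `{1,b,c,d}`. -/
inductive V
  | e | b | c | d
  deriving DecidableEq

namespace V

instance : Fintype V := ⟨{e, b, c, d}, by intro x; cases x <;> simp⟩

/-- Multiplication table. -/
def mul : V → V → V
  | e, x => x
  | x, e => x
  | b, b => e
  | b, c => d
  | b, d => c
  | c, b => d
  | c, c => e
  | c, d => b
  | d, b => c
  | d, c => b
  | d, d => e

/-- The section at the odd numbers: flip or not. -/
def phi : V → Bool
  | e => false
  | b => true
  | c => true
  | d => false

/-- The section at the even numbers. -/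
def psi : V → V
  | e => e
  | b => c
  | c => d
  | d => b

lemma mul_self (x : V) : mul x x = e := by cases x <;> rfl

lemma psi_mul (x y : V) : psi (mul x y) = mul (psi x) (psi y) := by
  cases x <;> cases y <;> rfl

lemma phi_mul (x y : V) : phi (mul x y) = xor (phi x) (phi y) := by
  cases x <;> cases y <;> rfl

end V

/-- Action of `{1,b,c,d}` on `ℕ`. -/
def vfun (x : V) (n : ℕ) : ℕ :=
  if n = 0 then 0 else
  if n % 2 = 0 then 2 * vfun (V.psi x) (n / 2) else
  if V.phi x then 2 * A (n / 2) + 1 else n
termination_by n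
decreasing_by omega

@[simp] lemma vfun_zero (x : V) : vfun x 0 = 0 := by
  rw [vfun]; simp

lemma vfun_even (x : V) (m : ℕ) : vfun x (2 * m) = 2 * vfun (V.psi x) m := by
  rw [vfun]
  by_cases h : m = 0
  · subst h; simp
  · rw [if_neg (by omega), if_pos (by omega)]
    simp

lemma vfun_odd (x : V) (m : ℕ) :
    vfun x (2 * m + 1) = 2 * (if V.phi x then A m else m) + 1 := by
  rw [vfun, if_neg (by omega), if_neg (by omega)]
  have h2 : (2 * m + 1) / 2 = m := by omega
  rw [h2]
  split_ifs <;> rfl

lemma vfun_mul (x y : V) (n : ℕ) : vfun (V.mul x y) n = vfun x (vfun y n) := by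
  induction n using Nat.strong_induction_on generalizing x y with
  | _ n ih =>
    rcases Nat.even_or_odd' n with ⟨m, rfl | rfl⟩
    · by_cases h : m = 0
      · subst h; simp
      · rw [vfun_even, vfun_even, vfun_even, V.psi_mul, ih m (by omega)]
    · rw [vfun_odd, vfun_odd, vfun_odd, V.phi_mul]
      have hA : ∀ m, A (A m) = m := fun m => by
        rw [← Perm.mul_apply, A_mul_A]
        rfl
      cases V.phi x <;> cases V.phi y <;> simp [hA]

lemma vfun_e (n : ℕ) : vfun V.e n = n := by
  induction n using Nat.strong_induction_on with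
  | _ n ih =>
    rcases Nat.even_or_odd' n with ⟨m, rfl | rfl⟩
    · by_cases h : m = 0
      · subst h; simp
      · rw [vfun_even]
        have : V.psi V.e = V.e := rfl
        rw [this, ih m (by omega)]
    · rw [vfun_odd]
      simp [V.phi]

/-- Action of `{1,b,c,d}` by permutations. -/
def vperm (x : V) : Perm ℕ where
  toFun := vfun x
  invFun := vfun x
  left_inv n := by rw [← vfun_mul, V.mul_self, vfun_e]
  right_inv n := by rw [← vfun_mul, V.mul_self, vfun_e]

lemma vperm_apply (x : V) (n : ℕ) : vperm x n = vfun x n := rfl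

lemma vperm_mul (x y : V) : vperm (V.mul x y) = vperm x * vperm y := by
  ext n
  rw [Perm.mul_apply, vperm_apply, vperm_apply, vperm_apply, vfun_mul]

lemma vperm_e : vperm V.e = 1 := by
  ext n
  rw [vperm_apply, vfun_e]
  rfl

/-- `A` or the identity. -/
def ea (b : Bool) : Perm ℕ := if b then A else 1

lemma vperm_eq (x : V) : vperm x = bi (vperm (V.psi x)) (ea (V.phi x)) := by
  apply perm_ext_bin
  · intro m
    rw [bi_even, vperm_apply, vperm_apply, vfun_even]
  · intro m
    rw [bi_odd, vperm_apply, vfun_odd, ea]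
    cases V.phi x <;> simp

@[simp] lemma vperm_zero (x : V) : vperm x 0 = 0 := by
  rw [vperm_apply, vfun_zero]

/-- The letters: `none` is `a`, and `some x` is `x ∈ {1,b,c,d}`. -/
def gact : Option V → Perm ℕ
  | none => A
  | some x => vperm x

@[simp] lemma gact_none : gact none = A := rfl
@[simp] lemma gact_some (x : V) : gact (some x) = vperm x := rfl

lemma gact_inv (s : Option V) : gact s * gact s = 1 := by
  rcases s with _ | x
  · exact A_mul_A
  · rw [gact_some, ← vperm_mul, V.mul_self, vperm_e]

end Pool.Agent.H.MP_e563b5_al
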