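import Pool.Agent.H.MP_e563b5_al.Fin

set_option autoImplicit false
set_option linter.unusedSectionVars false

open Equiv Finset Filter Topology
open scoped Classical

noncomputable section

namespace Pool.Agent.H.MP_e563b5_al

/-- Weights of letters. -/
def wl : Option V → ℕ
  | none => 3
  | some V.e => 1
  | some V.b => 3
  | some V.c => 2
  | some V.d => 1

/-- Weights of blocks. -/
def wb : V → ℕ
  | V.e => 0
  | V.b => 3
  | V.c => 2
  | V.d => 1

/-- Weight of a word. -/
def wt (w : List (Option V)) : ℕ := (w.map wl).sum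

@[simp] lemma wt_nil : wt [] = 0 := rfl
@[simp] lemma wt_cons (s : Option V) (w : List (Option V)) : wt (s :: w) = wl s + wt w := by
  simp [wt]

lemma length_le_wt (w : List (Option V)) : w.length ≤ wt w := by
  induction w with
  | nil => simp
  | cons s w ih =>
    rw [wt_cons, List.length_cons]
    have : 1 ≤ wl s := by
      rcases s with _ | y
      · simp [wl]
      · cases y <;> simp [wl]
    omega

lemma wt_le_length (w : List (Option V)) : wt w ≤ 3 * w.length := by
  induction w with
  | nil => simp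
  | cons s w ih =>
    rw [wt_cons, List.length_cons]
    have : wl s ≤ 3 := by
      rcases s with _ | y
      · simp [wl]
      · cases y <;> simp [wl]
    omega

lemma wb_mul (y x : V) : wb (V.mul y x) ≤ wl (some y) + wb x := by
  cases y <;> cases x <;> simp [wb, wl, V.mul]

lemma wt_pre (b : Bool) (u : List (Option V)) :
    wt (pre b ++ u) = (if b then 3 else 0) + wt u := by
  cases b <;> simp [pre, wl]

lemma contract (x : V) :
    6 * (wl (some (V.psi x)) + (if V.phi x then 3 else 0)) ≤ 15 + 5 * wb x := by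
  cases x <;> simp [wl, wb, V.psi, V.phi]

/-- Sections with weights, first form. -/
lemma sections_weight_aux (w : List (Option V)) :
    ∃ (x : V) (u1 u0 : List (Option V)) (ε : Bool),
      val gact w = vperm x * bi (val gact u1) (val gact u0) * ea ε ∧
      sites gact 0 w ⊆ (dbl (sites gact 0 u1) (sites gact 0 u0)).map (vperm x).toEmbedding ∧
      6 * (wt u0 + wt u1) + 5 * wb x ≤ 5 * wt w := by
  induction w with
  | nil =>
    refine ⟨V.e, [], [], false, ?_, ?_, ?_⟩
    · simp [vperm_e, ea, bi_one]
    · rw [vperm_e, map_one_toEmbedding]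
      decide
    · simp [wb]
  | cons s w ih =>
    obtain ⟨x, u1, u0, ε, h1, h2, h3⟩ := ih
    rcases s with _ | y
    · refine ⟨V.e, pre (V.phi x) ++ u0, some (V.psi x) :: u1, !ε, ?_, ?_, ?_⟩
      · rw [val_cons, h1, gact_none, vperm_e, one_mul, vperm_eq, bi_mul, ← mul_assoc, A_mul_bi,
          mul_assoc, ea_not, val_pre]
        rfl
      · rw [vperm_e, map_one_toEmbedding, sites_cons, gact_none]
        have h4 : (sites gact 0 w).map A.toEmbedding ⊆
            dbl ((sites gact 0 u0).map (ea (V.phi x)).toEmbedding)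
              ((sites gact 0 u1).map (vperm (V.psi x)).toEmbedding) := by
          refine (Finset.map_subset_map.2 h2).trans ?_
          rw [vperm_eq, map_bi_dbl, map_A_dbl]
        refine (Finset.insert_subset_insert 0 h4).trans ?_
        rw [insert_zero_dbl]
        refine dbl_mono ?_ ?_
        · rw [sites_pre]
        · rw [sites_cons]
          exact Finset.subset_insert _ _
      · rw [wt_pre, wt_cons, wt_cons]
        have := contract x
        have e : wb V.e = 0 := rfl
        have e' : wl none = 3 := rfl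
        rw [e, e']
        omega
    · refine ⟨V.mul y x, u1, u0, ε, ?_, ?_, ?_⟩
      · rw [val_cons, h1, vperm_mul, gact_some]
        simp only [mul_assoc]
      · rw [sites_cons, gact_some, vperm_mul, map_mul_toEmbedding]
        rw [Finset.insert_subset_iff]
        refine ⟨?_, Finset.map_subset_map.2 h2⟩
        have h4 : (0 : ℕ) ∈ dbl (sites gact 0 u1) (sites gact 0 u0) :=
          (even_mem_dbl _ _ 0).2 (base_mem_sites _ _ _)
        rw [Finset.mem_map]
        refine ⟨0, ?_, by simp⟩
        rw [Finset.mem_map]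
        exact ⟨0, h4, by simp⟩
      · rw [wt_cons]
        have := wb_mul y x
        omega

/-- Sections with weights. -/
lemma sections_weight (w : List (Option V)) :
    ∃ (u1 u0 : List (Option V)) (ε : Bool),
      val gact w = bi (val gact u1) (val gact u0) * ea ε ∧
      sites gact 0 w ⊆ dbl (sites gact 0 u1) (sites gact 0 u0) ∧
      6 * (wt u0 + wt u1) ≤ 5 * wt w + 15 := by
  obtain ⟨x, u1, u0, ε, h1, h2, h3⟩ := sections_weight_aux w
  refine ⟨some (V.psi x) :: u1, pre (V.phi x) ++ u0, ε, ?_, ?_, ?_⟩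
  · rw [h1, vperm_eq, bi_mul, val_cons, val_pre]
    rfl
  · refine h2.trans ?_
    rw [vperm_eq, map_bi_dbl]
    refine dbl_mono ?_ ?_
    · rw [sites_cons]
      exact Finset.subset_insert _ _
    · rw [sites_pre]
      exact Finset.subset_insert _ _
  · rw [wt_pre, wt_cons]
    have := contract x
    omega

/-- Pairs of weight at most `n`. -/
def Qw (n : ℕ) : Set (Finset ℕ × Perm ℕ) :=
  {p | ∃ w : List (Option V), wt w ≤ n ∧ val gact w = p.2 ∧ p.1 ⊆ sites gact 0 w}

lemma Qw_subset_pairs (n : ℕ) : Qw n ⊆ pairs gact 0 n := by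
  rintro p ⟨w, h1, h2, h3⟩
  exact ⟨w, (length_le_wt w).trans h1, h2, h3⟩

lemma pairs_subset_Qw (n : ℕ) : pairs gact 0 n ⊆ Qw (3 * n) := by
  rintro p ⟨w, h1, h2, h3⟩
  exact ⟨w, (wt_le_length w).trans (by omega), h2, h3⟩

lemma Qw_finite (n : ℕ) : (Qw n).Finite := (pairs_finite gact 0 n).subset (Qw_subset_pairs n)

/-- Number of pairs of weight at most `n`. -/
def q (n : ℕ) : ℕ := (Qw_finite n).toFinset.card

lemma q_rec (n m : ℕ) (hm : 6 * m ≤ 5 * n + 15) (hm' : 5 * n + 15 < 6 * (m + 1)) :
    q n ≤ ∑ i ∈ Finset.range (m + 1), q i * q (m - i) * 2 := by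
  have hsub : (Qw_finite n).toFinset ⊆ (Finset.range (m + 1)).biUnion (fun i =>
      (((Qw_finite i).toFinset ×ˢ (Qw_finite (m - i)).toFinset) ×ˢ
        (Finset.univ : Finset Bool)).image (fun p =>
          ((dbl p.1.1.1 p.1.2.1, bi p.1.1.2 p.1.2.2 * ea p.2) : Finset ℕ × Perm ℕ))) := by
    rintro ⟨Y, g⟩ hp
    rw [Set.Finite.mem_toFinset] at hp
    obtain ⟨w, h1, h2, h3⟩ := hp
    simp only at h2 h3
    obtain ⟨u1, u0, ε, h4, h5, h6⟩ := sections_weight w
    obtain ⟨Y1, Y0, hY1, hY0, rfl⟩ := exists_dbl (h3.trans h5)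
    rw [Finset.mem_biUnion]
    refine ⟨wt u1, by rw [Finset.mem_range]; omega, ?_⟩
    rw [Finset.mem_image]
    refine ⟨(((Y1, val gact u1), (Y0, val gact u0)), ε), ?_, ?_⟩
    · rw [Finset.mem_product, Finset.mem_product, Set.Finite.mem_toFinset,
        Set.Finite.mem_toFinset]
      exact ⟨⟨⟨u1, le_rfl, rfl, hY1⟩, ⟨u0, by omega, rfl, hY0⟩⟩, Finset.mem_univ _⟩
    · simp only
      rw [← h2, h4]
  refine (Finset.card_le_card hsub).trans (Finset.card_biUnion_le.trans ?_)
  refine Finset.sum_le_sum ?_
  intro i _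
  refine Finset.card_image_le.trans ?_
  rw [Finset.card_product, Finset.card_product]
  simp [q]

/-- Crude bound. -/
lemma pairs_crude (n : ℕ) :
    (pairs_finite gact 0 n).toFinset.card ≤ 11 ^ n * (pairs_finite gact 0 0).toFinset.card := by
  induction n with
  | zero => simp
  | succ n ih =>
    have hsub : (pairs_finite gact 0 (n + 1)).toFinset ⊆
        (pairs_finite gact 0 n).toFinset ∪
        (((Finset.univ : Finset (Option V)) ×ˢ (Finset.univ : Finset Bool)) ×ˢ
          (pairs_finite gact 0 n).toFinset).image (fun t =>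
            ((if t.1.2 then insert 0 (t.2.1.map (gact t.1.1).toEmbedding) else
              t.2.1.map (gact t.1.1).toEmbedding, gact t.1.1 * t.2.2) : Finset ℕ × Perm ℕ)) := by
      rintro ⟨Y, g⟩ hp
      rw [Set.Finite.mem_toFinset] at hp
      obtain ⟨w, h1, h2, h3⟩ := hp
      simp only at h2 h3
      rw [Finset.mem_union]
      rcases w with _ | ⟨s, w⟩
      · left
        rw [Set.Finite.mem_toFinset]
        exact ⟨[], Nat.zero_le _, h2, h3⟩
      · right
        rw [Finset.mem_image]
        rw [List.length_cons] at h1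
        refine ⟨((s, decide (0 ∈ Y)), (((Y.erase 0).map (gact s).symm.toEmbedding),
          val gact w)), ?_, ?_⟩
        · rw [Finset.mem_product, Set.Finite.mem_toFinset]
          refine ⟨Finset.mem_product.2 ⟨Finset.mem_univ _, Finset.mem_univ _⟩, w, by omega, rfl, ?_⟩
          intro x hx
          simp only at hx
          rw [Finset.mem_map_equiv, Finset.mem_erase] at hx
          have h4 := h3 hx.2
          rw [sites_cons, Finset.mem_insert, Finset.mem_map_equiv] at h4
          rcases h4 with h4 | h4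
          · exact absurd h4 hx.1
          · simpa using h4
        · have e : ((Y.erase 0).map (gact s).symm.toEmbedding).map (gact s).toEmbedding =
              Y.erase 0 := by
            ext x
            rw [Finset.mem_map_equiv, Finset.mem_map_equiv]
            simp
          simp only [e]
          refine Prod.ext ?_ ?_
          · simp only [decide_eq_true_eq]
            split_ifs with h
            · exact Finset.insert_erase h
            · exact Finset.erase_eq_of_notMem h
          · simp only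
            rw [← h2, val_cons]
    refine (Finset.card_le_card hsub).trans ((Finset.card_union_le _ _).trans ?_)
    have h5 : ((((Finset.univ : Finset (Option V)) ×ˢ (Finset.univ : Finset Bool)) ×ˢ
          (pairs_finite gact 0 n).toFinset).image (fun t =>
            ((if t.1.2 then insert 0 (t.2.1.map (gact t.1.1).toEmbedding) else
              t.2.1.map (gact t.1.1).toEmbedding, gact t.1.1 * t.2.2) :
                Finset ℕ × Perm ℕ))).card ≤ 10 * (pairs_finite gact 0 n).toFinset.card := by
      refine Finset.card_image_le.trans ?_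
      rw [Finset.card_product, Finset.card_product]
      refine Nat.mul_le_mul_right _ ?_
      decide
    rw [pow_succ]
    nlinarith

/-- Exponential bound with exponent `δ`. -/
def PE (δ : ℝ) : Prop := ∃ C : ℝ, 1 ≤ C ∧ ∀ n : ℕ, (q n : ℝ) ≤ C * Real.exp (δ * n)

lemma PE_base : PE (Real.log 11) := by
  refine ⟨max 1 ((pairs_finite gact 0 0).toFinset.card : ℝ), le_max_left _ _, fun n => ?_⟩
  have h1 : q n ≤ (pairs_finite gact 0 n).toFinset.card := by
    refine Finset.card_le_card ?_
    intro p hp
    rw [Set.Finite.mem_toFinset] at *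
    exact Qw_subset_pairs n hp
  have h2 := h1.trans (pairs_crude n)
  have h3 : (q n : ℝ) ≤ 11 ^ n * (pairs_finite gact 0 0).toFinset.card := by exact_mod_cast h2
  have h4 : Real.exp (Real.log 11 * n) = 11 ^ n := by
    rw [mul_comm, Real.exp_nat_mul, Real.exp_log (by norm_num)]
  rw [h4, mul_comm]
  refine h3.trans ?_
  exact mul_le_mul_of_nonneg_left (le_max_right _ _) (by positivity)

lemma PE_step {δ : ℝ} (hδ : 0 < δ) (h : PE δ) : PE (11 / 12 * δ) := by
  obtain ⟨C, hC1, hC⟩ := h
  refine ⟨2 * C ^ 2 * (12 / δ + 4) * Real.exp (δ * (5 / 2)), ?_, fun n => ?_⟩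
  · have h1 : (1 : ℝ) ≤ Real.exp (δ * (5 / 2)) := by
      rw [← Real.exp_zero]
      exact Real.exp_le_exp.2 (by positivity)
    have h2 : (4 : ℝ) ≤ 12 / δ + 4 := by
      have : 0 < 12 / δ := by positivity
      linarith
    have h3 : (1 : ℝ) ≤ C ^ 2 := one_le_pow₀ hC1
    calc (1 : ℝ) ≤ 2 * 1 * 4 * 1 := by norm_num
      _ ≤ 2 * C ^ 2 * (12 / δ + 4) * Real.exp (δ * (5 / 2)) := by gcongr
  · set m := (5 * n + 15) / 6 with hm
    have h1 := q_rec n m (by omega) (by omega)
    have h2 : (q n : ℝ) ≤ ∑ i ∈ Finset.range (m + 1), (q i : ℝ) * q (m - i) * 2 := by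
      exact_mod_cast h1
    have h3 : ∀ i ∈ Finset.range (m + 1), (q i : ℝ) * q (m - i) * 2 ≤
        2 * C ^ 2 * Real.exp (δ * m) := by
      intro i hi
      rw [Finset.mem_range] at hi
      have e : Real.exp (δ * m) = Real.exp (δ * i) * Real.exp (δ * (m - i : ℕ)) := by
        rw [← Real.exp_add]
        congr 1
        rw [Nat.cast_sub (by omega)]
        ring
      calc (q i : ℝ) * q (m - i) * 2 ≤
          (C * Real.exp (δ * i)) * (C * Real.exp (δ * (m - i : ℕ))) * 2 := by
            refine mul_le_mul_of_nonneg_right ?_ (by norm_num)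
            exact mul_le_mul (hC i) (hC (m - i)) (by positivity) (by positivity)
        _ = 2 * C ^ 2 * Real.exp (δ * m) := by rw [e]; ring
    have h4 := h2.trans (Finset.sum_le_card_nsmul _ _ _ h3)
    rw [Finset.card_range, nsmul_eq_mul] at h4
    have hm6 : 6 * m ≤ 5 * n + 15 := by omega
    have hm6' : (6 : ℝ) * m ≤ 5 * n + 15 := by exact_mod_cast hm6
    have h5 : ((m + 1 : ℕ) : ℝ) ≤ (12 / δ + 4) * Real.exp (δ / 12 * n) := by
      have h6 : δ / 12 * n + 1 ≤ Real.exp (δ / 12 * n) := Real.add_one_le_exp _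
      have h7 : (n : ℝ) ≤ (12 / δ) * Real.exp (δ / 12 * n) := by
        rw [div_mul_eq_mul_div, le_div_iff₀ hδ]
        linarith
      have h8 : (1 : ℝ) ≤ Real.exp (δ / 12 * n) := by
        rw [← Real.exp_zero]
        exact Real.exp_le_exp.2 (by positivity)
      push_cast
      have h9 : (0 : ℝ) ≤ n := by positivity
      calc (m : ℝ) + 1 ≤ n + 4 := by linarith
        _ ≤ (12 / δ) * Real.exp (δ / 12 * n) + 4 * Real.exp (δ / 12 * n) := by linarith
        _ = _ := by ring
    have h6 : Real.exp (δ * m) ≤ Real.exp (δ * (5 / 2)) * Real.exp (δ * (5 / 6) * n) := by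
      rw [← Real.exp_add]
      refine Real.exp_le_exp.2 ?_
      have : (m : ℝ) ≤ 5 / 6 * n + 5 / 2 := by linarith
      calc δ * m ≤ δ * (5 / 6 * n + 5 / 2) := mul_le_mul_of_nonneg_left this hδ.le
        _ = _ := by ring
    calc (q n : ℝ) ≤ ((m + 1 : ℕ) : ℝ) * (2 * C ^ 2 * Real.exp (δ * m)) := h4
      _ ≤ ((12 / δ + 4) * Real.exp (δ / 12 * n)) * (2 * C ^ 2 *
          (Real.exp (δ * (5 / 2)) * Real.exp (δ * (5 / 6) * n))) := by
            refine mul_le_mul h5 ?_ (by positivity) (by positivity)
            exact mul_le_mul_of_nonneg_left h6 (by positivity)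
      _ = 2 * C ^ 2 * (12 / δ + 4) * Real.exp (δ * (5 / 2)) *
          (Real.exp (δ / 12 * n) * Real.exp (δ * (5 / 6) * n)) := by ring
      _ = _ := by
          rw [← Real.exp_add]
          congr 2
          ring

lemma PE_mono {δ δ' : ℝ} (h : δ ≤ δ') (hP : PE δ) : PE δ' := by
  obtain ⟨C, hC1, hC⟩ := hP
  refine ⟨C, hC1, fun n => (hC n).trans ?_⟩
  refine mul_le_mul_of_nonneg_left ?_ (by positivity)
  exact Real.exp_le_exp.2 (mul_le_mul_of_nonneg_right h (by positivity))

lemma PE_all {δ : ℝ} (hδ : 0 < δ) : PE δ := by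
  have hlog : 0 < Real.log 11 := Real.log_pos (by norm_num)
  have h1 : ∀ j : ℕ, PE ((11 / 12) ^ j * Real.log 11) := by
    intro j
    induction j with
    | zero => simpa using PE_base
    | succ j ih =>
      have := PE_step (by positivity) ih
      rw [pow_succ]
      have e : (11 / 12 : ℝ) ^ j * (11 / 12) * Real.log 11 =
        11 / 12 * ((11 / 12) ^ j * Real.log 11) := by ring
      rw [e]
      exact this
  obtain ⟨j, hj⟩ := exists_pow_lt_of_lt_one (y := (11 / 12 : ℝ)) (x := δ / Real.log 11)
    (by positivity) (by norm_num)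
  rw [lt_div_iff₀ hlog] at hj
  exact PE_mono hj.le (h1 j)

lemma H1_gact : H1 gact 0 := by
  intro r
  have hlog2 : 0 < Real.log 2 := Real.log_pos (by norm_num)
  obtain ⟨C, hC1, hC⟩ := PE_all (δ := Real.log 2 / (6 * (r + 1))) (by positivity)
  obtain ⟨N, hN⟩ := exists_nat_gt (2 * Real.log C / Real.log 2)
  refine ⟨N, fun n hn => ?_⟩
  have h1 : (pairs gact 0 (r * n)).ncard ≤ q (3 * (r * n)) := by
    rw [Set.ncard_eq_toFinset_card _ (pairs_finite gact 0 (r * n))]
    refine Finset.card_le_card ?_
    intro p hp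
    rw [Set.Finite.mem_toFinset] at *
    exact pairs_subset_Qw _ hp
  have h2 := hC (3 * (r * n))
  have h3 : Real.log C ≤ n * (Real.log 2 / 2) := by
    rw [div_lt_iff₀ hlog2] at hN
    have : (N : ℝ) ≤ n := by exact_mod_cast hn
    nlinarith
  have h4 : Real.log 2 / (6 * (r + 1)) * ((3 * (r * n) : ℕ) : ℝ) ≤ n * (Real.log 2 / 2) := by
    push_cast
    rw [div_mul_eq_mul_div, div_le_iff₀ (by positivity)]
    have : (0 : ℝ) ≤ n * Real.log 2 := by positivity
    nlinarith
  have h5 : (q (3 * (r * n)) : ℝ) ≤ 2 ^ n := by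
    calc (q (3 * (r * n)) : ℝ) ≤ C * Real.exp (Real.log 2 / (6 * (r + 1)) *
          ((3 * (r * n) : ℕ) : ℝ)) := h2
      _ = Real.exp (Real.log C) * Real.exp (Real.log 2 / (6 * (r + 1)) *
          ((3 * (r * n) : ℕ) : ℝ)) := by rw [Real.exp_log (by linarith)]
      _ ≤ Real.exp (n * (Real.log 2 / 2)) * Real.exp (n * (Real.log 2 / 2)) := by
          refine mul_le_mul (Real.exp_le_exp.2 h3) (Real.exp_le_exp.2 h4) (by positivity)
            (by positivity)
      _ = 2 ^ n := by
          rw [← Real.exp_add]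
          have : (n : ℝ) * (Real.log 2 / 2) + n * (Real.log 2 / 2) = n * Real.log 2 := by ring
          rw [this, Real.exp_nat_mul, Real.exp_log (by norm_num)]
  have h6 : q (3 * (r * n)) ≤ 2 ^ n := by exact_mod_cast h5
  exact h1.trans h6

end Pool.Agent.H.MP_e563b5_al
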